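import Pool.Agent.Lib.MP_f99268_lc_T.Near

/-!
# Near colours generate (a consequence of the Ramsey property)
-/

namespace Pool.Agent.MP_f99268_lc

open Equiv Classical

variable {ι D : Type} {Δ : BStr ι D} {lev : (ι → Prop) → ℕ}

theorem Cx.gen (X : Cx Δ lev) (hR : RamseyProperty Δ) (R : Setoid D)
    (hinv : ∀ g ∈ autG Δ, ∀ a b, R.r a b → R.r (g a) (g b)) {l : ℕ} {g : ι → Prop}
    (hg : Near Δ lev l g) (hgl : lev g = l)
    (h1 : ∀ a b, a ≠ b → lev (col Δ a b) < l → R.r a b)
    (h2 : ∀ a b, a ≠ b → col Δ a b = g → R.r a b) :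
    ∀ x y, x ≠ y → lev (col Δ x y) ≤ l → R.r x y := by
  have hs := X.hs
  -- it suffices to consider `x < y`
  suffices H : ∀ x y, Δ.lt x y → lev (col Δ x y) ≤ l → R.r x y by
    intro x y hxy h
    rcases X.tri x y with h' | h' | h'
    · exact H x y h' h
    · exact absurd h' hxy
    · exact R.iseqv.symm (H y x h' (by rwa [hs.col_symm]))
  intro x y hxy hl
  by_contra hcon
  have hne := X.ne hxy
  have hlk : l ≤ lev (col Δ x y) := by
    by_contra h
    exact hcon (h1 x y hne (by omega))
  have htw := hg.twin _ ⟨x, y, hne, rfl⟩ hlk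
  let p : D → ι → Prop := fun a => if a = x then g else col Δ x y
  have hpx : p x = g := if_pos rfl
  have hpy : p y = col Δ x y := if_neg hne.symm
  have : Nonempty D := ⟨x⟩
  obtain ⟨w, hw, hwp⟩ := X.hT.ext X.hlin X.hΔ {x, y} p (fun _ => True)
    (by
      intro a ha
      rw [Finset.mem_insert, Finset.mem_singleton] at ha
      rcases ha with rfl | rfl
      · rw [hpx]
        exact hg.rl
      · rw [hpy]
        exact ⟨x, a, hne, rfl⟩)
    (by
      intro a ha b hb hab
      rw [Finset.mem_insert, Finset.mem_singleton] at ha hb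
      rcases ha with ha | ha <;> rcases hb with hb | hb
      · exact absurd (ha.trans hb.symm) hab
      · rw [ha, hb, hpx, hpy]
        exact htw.swap12 hs
      · rw [ha, hb, hpx, hpy, hs.col_symm y x]
        exact htw.rot hs
      · exact absurd (ha.trans hb.symm) hab)
    (fun _ _ _ _ _ _ => trivial)
    (by
      intro a ha b hb hab _
      rw [Finset.mem_insert, Finset.mem_singleton] at ha hb
      rcases ha with ha | ha <;> rcases hb with hb | hb
      · rw [ha, hb] at hab
        exact absurd hab (X.irr _)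
      · rw [ha, hb, hpx]
        omega
      · rw [ha, hb] at hab
        exact absurd hab (X.asym hxy)
      · rw [ha, hb] at hab
        exact absurd hab (X.irr _))
    (fun _ _ _ _ _ h => absurd trivial h)
    (fun _ _ _ _ h _ => absurd trivial h)
  obtain ⟨e1, o1⟩ := hwp x (Finset.mem_insert_self _ _)
  obtain ⟨e2, o2⟩ := hwp y (by simp)
  rw [hpx] at e1
  rw [hpy] at e2
  have hxw : Δ.lt x w := o1.2 trivial
  have hyw : Δ.lt y w := o2.2 trivial
  -- the second copy of the pair
  obtain ⟨k, hk, hk'⟩ := ext_of hs X.hΔ (S := {x, y}) (Set.toFinite _)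
    (f := fun a => if a = x then y else w) (by
    intro a ha b hb hab
    rw [Set.mem_insert_iff, Set.mem_singleton_iff] at ha hb
    have i1 : (if x = x then y else w) = y := if_pos rfl
    have i2 : (if y = x then y else w) = w := if_neg hne.symm
    rcases ha with ha | ha <;> rcases hb with hb | hb
    · exact absurd (ha.trans hb.symm) hab
    · rw [ha, hb, i1, i2]
      exact ⟨X.ne hyw, by rw [hs.col_symm, e2], iff_of_true hyw hxy⟩
    · rw [ha, hb, i1, i2]
      exact ⟨(X.ne hyw).symm, by rw [e2, hs.col_symm], iff_of_false (X.asym hyw) (X.asym hxy)⟩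
    · exact absurd (ha.trans hb.symm) hab) X.irr
  have hkx : k x = y := (hk' x (by simp)).trans (if_pos rfl)
  have hky : k y = w := (hk' y (by simp)).trans (if_neg hne.symm)
  obtain ⟨C, hC⟩ := fr_autG X.hlin X.hΔ hR {x, y} {x, y, w}
  let xx : {a // a ∈ ({x, y} : Finset D)} := ⟨x, by simp⟩
  let yy : {a // a ∈ ({x, y} : Finset D)} := ⟨y, by simp⟩
  obtain ⟨h, hh, -, hmono⟩ := hC (fun φ =>
    decide (WellOrderingRel (Quotient.mk R (φ xx)) (Quotient.mk R (φ yy))))
  have h3 := hmono h hh (h * k) ((autG Δ).mul_mem hh hk)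
    (by
      intro a ha
      rw [Finset.mem_insert, Finset.mem_singleton] at ha
      rcases ha with rfl | rfl
      · exact ⟨a, by simp, rfl⟩
      · exact ⟨a, by simp, rfl⟩)
    (by
      intro a ha
      rw [Finset.mem_insert, Finset.mem_singleton] at ha
      rcases ha with rfl | rfl
      · exact ⟨y, by simp, congrArg h hkx⟩
      · exact ⟨w, by simp, congrArg h hky⟩)
  have h4 : WellOrderingRel (Quotient.mk R (h x)) (Quotient.mk R (h y)) ↔
      WellOrderingRel (Quotient.mk R (h y)) (Quotient.mk R (h w)) := by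
    have h5 : decide (WellOrderingRel (Quotient.mk R (h x)) (Quotient.mk R (h y))) =
        decide (WellOrderingRel (Quotient.mk R (h (k x))) (Quotient.mk R (h (k y)))) := h3
    rw [hkx, hky] at h5
    exact decide_eq_decide.1 h5
  have h6 : Quotient.mk R (h w) = Quotient.mk R (h x) := by
    apply Quotient.sound
    exact hinv h hh w x (h2 w x (X.ne hxw).symm e1)
  rw [h6] at h4
  have h7 : Quotient.mk R (h x) = Quotient.mk R (h y) := by
    rcases trichotomous_of WellOrderingRel (Quotient.mk R (h x)) (Quotient.mk R (h y)) with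
      h | h | h
    · exact absurd (h4.1 h) (asymm_of WellOrderingRel h)
    · exact h
    · exact absurd (h4.2 h) (asymm_of WellOrderingRel h)
  have h8 : R.r (h x) (h y) := Quotient.exact h7
  have h9 := hinv h⁻¹ ((autG Δ).inv_mem hh) _ _ h8
  have h10 : ∀ a, h⁻¹ (h a) = a := fun a => h.symm_apply_apply a
  rw [h10, h10] at h9
  exact hcon h9

end Pool.Agent.MP_f99268_lc
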