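import Pool.Agent.Lib.MP_f99268_lc_T.Fold
import Pool.Agent.Lib.MP_f99268_lc_T.Gen

/-!
# The chain of positions
-/

namespace Pool.Agent.MP_f99268_lc

open Equiv Classical

variable {ι D : Type} {Δ : BStr ι D} {lev : (ι → Prop) → ℕ} {l : ℕ}
  {ρ : Option (ι → Prop) → (ι → Prop)}

/-- The positions `ρ`, `ρ'` can be glued along pairs of the top level. -/
def Gl (Δ : BStr ι D) (lev : (ι → Prop) → ℕ) (top : ℕ)
    (ρ ρ' : Option (ι → Prop) → (ι → Prop)) : Prop :=
  ∀ x y z, x ≠ y → top ≤ lev (col Δ x y) → Tr Δ (col Δ x y) (ρ (cc Δ x z)) (ρ' (cc Δ y z))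

theorem Cx.lev_eq (X : Cx Δ lev) (hρ : St Δ lev l ρ) (x z : D) :
    lev (ρ (cc Δ x z)) + 1 = max (l + 1) (dd Δ lev x z) := by
  by_cases h : x = z
  · subst h
    rw [cc_self, dd_self, hρ.lz]
    omega
  · have h1 := X.lev_le (hρ.hm x z z h)
    rw [cc_self, hρ.lz] at h1
    have h2 := hρ.low x z
    rw [dd_ne h]
    omega

/-- Pairs close to each other are compatible with all colours of higher level. -/
theorem Cx.small (X : Cx Δ lev) (hρ : St Δ lev l ρ) {n : ℕ}
    (hinv : ∀ x y z, x ≠ y → lev (col Δ x y) < n → ρ (cc Δ x z) = ρ (cc Δ y z))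
    [Infinite D] {k a : ι → Prop} (hk : Rl Δ k) (hkl : lev k < n) (ha : a ∈ Vs Δ ρ) :
    Tr Δ k a a := by
  obtain ⟨x, y, hxy, rfl⟩ := hk
  obtain ⟨s, hs1, hs2⟩ := X.exists_col x (hρ.rl ha)
  have e : ρ (cc Δ x s) = a := by
    rw [cc_ne hs1.symm, hs2]
    exact hρ.fix ha
  have h := hρ.hm x y s hxy
  rw [← hinv x y s hxy hkl, e] at h
  exact h

/-- Folding. -/
theorem Cx.fold_step (X : Cx Δ lev) [Infinite D] (hρ : St Δ lev l ρ) {g v μ : ι → Prop}
    (hg : Near Δ lev l g) (hv : v ∈ Vs Δ ρ) (hμ : μ ∈ Vs Δ ρ) (hne : v ≠ μ) (hadj : Tr Δ g v μ)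
    (hF : ∀ a w, w ∈ Vs Δ ρ → l ≤ lev a → Tr Δ a v w → Tr Δ a μ w) {top : ℕ} (ht : l ≤ top) :
    ∃ ρ', St Δ lev l ρ' ∧ Gl Δ lev top ρ ρ' ∧ Vs Δ ρ' ⊆ Vs Δ ρ ∧ v ∉ Vs Δ ρ' := by
  have hs := X.hs
  let f : (ι → Prop) → (ι → Prop) := fun a => if a = v then μ else a
  have hfv : f v = μ := if_pos rfl
  have hfn : ∀ a, a ≠ v → f a = a := fun a ha => if_neg ha
  have hfV : ∀ a ∈ Vs Δ ρ, f a ∈ Vs Δ ρ := by
    intro a ha
    by_cases e : a = v
    · rw [e, hfv]
      exact hμ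
    · rw [hfn a e]
      exact ha
  have hflev : ∀ a, lev (f a) = lev a := by
    intro a
    by_cases e : a = v
    · rw [e, hfv]
      have h1 := X.lev_le hadj
      have h2 := X.near_min hg (hρ.rl hv) (hρ.le hv)
      have h3 := X.near_min hg (hρ.rl hμ) (hρ.le hμ)
      omega
    · rw [hfn a e]
  have hfne : ∀ a, f a ≠ v := by
    intro a
    by_cases e : a = v
    · rw [e, hfv]
      exact hne.symm
    · rw [hfn a e]
      exact e
  have hmem : ∀ x z, ρ (cc Δ x z) ∈ Vs Δ ρ := fun x z => ⟨x, z, rfl⟩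
  have step : ∀ k b c, l ≤ lev k → b ∈ Vs Δ ρ → Tr Δ k b c → Tr Δ k b (f c) := by
    intro k b c hk hb h
    by_cases e : c = v
    · rw [e, hfv]
      rw [e] at h
      exact (hF k b hb hk (h.swap23 hs)).swap23 hs
    · rw [hfn c e]
      exact h
  have step2 : ∀ k b c, l ≤ lev k → c ∈ Vs Δ ρ → Tr Δ k b c → Tr Δ k (f b) c :=
    fun k b c hk hc h => (step k c b hk hc (h.swap23 hs)).swap23 hs
  refine ⟨fun u => f (ρ u), ⟨?_, ?_, ?_, ?_, ?_⟩, ?_, ?_, ?_⟩
  · intro x y z hxy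
    show Tr Δ (col Δ x y) (f (ρ (cc Δ x z))) (f (ρ (cc Δ y z)))
    have h := hρ.hm x y z hxy
    by_cases hk : l ≤ lev (col Δ x y)
    · exact step2 _ _ _ hk (hfV _ (hmem _ _)) (step _ _ _ hk (hmem _ _) h)
    · rw [← hρ.inv x y z hxy (by omega)]
      exact X.small hρ hρ.inv ⟨x, y, hxy, rfl⟩ (by omega) (hfV _ (hmem _ _))
  · intro x y z hxy hk
    show f (ρ (cc Δ x z)) = f (ρ (cc Δ y z))
    rw [hρ.inv x y z hxy hk]
  · intro x z
    show l ≤ lev (f (ρ (cc Δ x z)))
    rw [hflev]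
    exact hρ.low x z
  · show lev (f (ρ none)) = l
    rw [hflev, hρ.lz]
  · intro x z
    show f (ρ (some (f (ρ (cc Δ x z))))) = f (ρ (cc Δ x z))
    rw [hρ.fix (hfV _ (hmem x z)), hfn _ (hfne _)]
  · intro x y z hxy hk
    exact step _ _ _ (le_trans ht hk) (hmem _ _) (hρ.hm x y z hxy)
  · rintro _ ⟨x, z, rfl⟩
    exact hfV _ (hmem x z)
  · rintro ⟨x, z, h⟩
    exact hfne _ h

/-- When no folding is possible, the position is invariant at the level `l`. -/
theorem Cx.inv_le (X : Cx Δ lev) [Finite ι] [Infinite D] (hR : RamseyProperty Δ)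
    (hρ : St Δ lev l ρ)
    (hfin : ∀ g, Near Δ lev l g → ∀ v ∈ Vs Δ ρ, ∀ w ∈ Vs Δ ρ, Tr Δ g v w → v = w) :
    ∀ x y z, x ≠ y → lev (col Δ x y) ≤ l → ρ (cc Δ x z) = ρ (cc Δ y z) := by
  obtain ⟨t⟩ := (inferInstance : Nonempty D)
  have hz : ρ none ∈ Vs Δ ρ := ⟨t, t, by rw [cc_self]⟩
  obtain ⟨g, hg⟩ := X.exists_near l ⟨ρ none, hρ.rl hz, hρ.le hz⟩
  have hgl : lev g = l := by
    have h1 := X.near_min hg (hρ.rl hz) (hρ.le hz)
    rw [hρ.lz] at h1
    exact le_antisymm h1 hg.le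
  let R : Setoid D :=
    { r := fun a b => ∀ z, ρ (cc Δ a z) = ρ (cc Δ b z)
      iseqv := ⟨fun a z => rfl, fun h z => (h z).symm, fun h h' z => (h z).trans (h' z)⟩ }
  have key := X.gen hR R (by
    intro k hk a b hab z
    have h := hab (k⁻¹ z)
    have e : k (k⁻¹ z) = z := k.apply_symm_apply z
    have e1 := cc_aut hk a (k⁻¹ z)
    have e2 := cc_aut hk b (k⁻¹ z)
    rw [e] at e1 e2
    rw [e1, e2]
    exact h) hg hgl
    (fun a b hab h z => hρ.inv a b z hab h)
    (fun a b hab h z => by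
      have h1 := hρ.hm a b z hab
      rw [h] at h1
      exact hfin g hg _ ⟨a, z, rfl⟩ _ ⟨b, z, rfl⟩ h1)
  exact fun x y z hxy h => key x y hxy h z

/-- Passing to the next level. -/
theorem Cx.level_step (X : Cx Δ lev) [Infinite D] (hρ : St Δ lev l ρ)
    (hinv : ∀ x y z, x ≠ y → lev (col Δ x y) ≤ l → ρ (cc Δ x z) = ρ (cc Δ y z))
    {g : ι → Prop} (hg : Near Δ lev (l + 1) g) {top : ℕ} (ht : lev g ≤ top) :
    ∃ ρ', St Δ lev (lev g) ρ' ∧ Gl Δ lev top ρ ρ' := by
  have hs := X.hs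
  have hgl := hg.le
  let ρ' : Option (ι → Prop) → (ι → Prop) := fun u =>
    match u with
    | none => ρ (some g)
    | some a => if lev a ≤ l then ρ (some g) else ρ (some a)
  have h1 : ∀ x z, dd Δ lev x z ≤ l + 1 → ρ' (cc Δ x z) = ρ (some g) := by
    intro x z h
    by_cases e : x = z
    · rw [e, cc_self]
    · rw [dd_ne e] at h
      rw [cc_ne e]
      exact if_pos (by omega)
  have h2 : ∀ x z, ¬ dd Δ lev x z ≤ l + 1 → ρ' (cc Δ x z) = ρ (cc Δ x z) := by
    intro x z h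
    by_cases e : x = z
    · rw [e, dd_self] at h
      exact absurd (Nat.zero_le _) h
    · rw [dd_ne e] at h
      rw [cc_ne e]
      exact if_neg (by omega)
  have hgV : ρ (some g) ∈ Vs Δ ρ := hρ.mem_some hg.rl
  have hglev : lev (ρ (some g)) = lev g := by
    obtain ⟨a, b, hab, hc⟩ := hg.rl
    have h := X.lev_eq hρ a b
    rw [dd_ne hab, cc_ne hab, hc] at h
    omega
  have hmem : ∀ x z, ρ' (cc Δ x z) ∈ Vs Δ ρ := by
    intro x z
    by_cases h : dd Δ lev x z ≤ l + 1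
    · rw [h1 x z h]
      exact hgV
    · rw [h2 x z h]
      exact ⟨x, z, rfl⟩
  -- the main computation
  have hfar : ∀ x y z, x ≠ y → dd Δ lev x z ≤ l + 1 → ¬ dd Δ lev y z ≤ l + 1 →
      Tr Δ (col Δ x y) (ρ (some g)) (ρ (cc Δ y z)) := by
    intro x y z hxy hx hy
    have e1 : ρ (cc Δ y z) = ρ (some (col Δ x y)) := by
      have e2 : cc Δ y x = some (col Δ x y) := by rw [cc_ne hxy.symm, hs.col_symm]
      rw [← e2, X.cc_symm y z, X.cc_symm y x]
      by_cases e : x = z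
      · rw [e]
      · rw [dd_ne e] at hx
        exact (hinv x z y e (by omega)).symm
    have h3 : l + 1 ≤ lev (col Δ x y) := by
      have h4 := X.dd_ultra y x z
      rw [X.dd_symm y x, dd_ne hxy] at h4
      omega
    rw [e1]
    exact hρ.hom ((hg.twin _ ⟨x, y, hxy, rfl⟩ h3).swap12 hs)
  refine ⟨ρ', ⟨?_, ?_, ?_, ?_, ?_⟩, ?_⟩
  · intro x y z hxy
    by_cases hx : dd Δ lev x z ≤ l + 1
    · by_cases hy : dd Δ lev y z ≤ l + 1
      · rw [h1 x z hx, h1 y z hy]
        apply X.small hρ (n := l + 1) (fun a b c hab h => hinv a b c hab (by omega))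
          ⟨x, y, hxy, rfl⟩ _ hgV
        have h4 := X.dd_ultra x z y
        rw [X.dd_symm z y, dd_ne hxy] at h4
        omega
      · rw [h1 x z hx, h2 y z hy]
        exact hfar x y z hxy hx hy
    · by_cases hy : dd Δ lev y z ≤ l + 1
      · rw [h2 x z hx, h1 y z hy, hs.col_symm x y]
        exact (hfar y x z hxy.symm hy hx).swap23 hs
      · rw [h2 x z hx, h2 y z hy]
        exact hρ.hm x y z hxy
  · intro x y z hxy hk
    have h3 : lev (col Δ x y) ≤ l := by
      by_contra h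
      have := X.near_min hg ⟨x, y, hxy, rfl⟩ (by omega)
      omega
    have h4 := X.dd_ultra x y z
    have h5 := X.dd_ultra y x z
    rw [X.dd_symm y x] at h5
    rw [dd_ne hxy] at h4 h5
    by_cases hx : dd Δ lev x z ≤ l + 1
    · rw [h1 x z hx, h1 y z (by omega)]
    · rw [h2 x z hx, h2 y z (by omega)]
      exact hinv x y z hxy h3
  · intro x z
    by_cases hx : dd Δ lev x z ≤ l + 1
    · rw [h1 x z hx, hglev]
    · rw [h2 x z hx]
      have h3 := X.lev_eq hρ x z
      have hxz : x ≠ z := by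
        rintro rfl
        rw [dd_self] at hx
        omega
      rw [dd_ne hxz] at h3 hx
      have h4 := X.near_min hg ⟨x, z, hxz, rfl⟩ (by omega)
      omega
  · exact hglev
  · intro x z
    have h3 : l < lev (ρ' (cc Δ x z)) := by
      by_cases hx : dd Δ lev x z ≤ l + 1
      · rw [h1 x z hx, hglev]
        omega
      · rw [h2 x z hx]
        have h3 := X.lev_eq hρ x z
        omega
    have h4 : ρ' (some (ρ' (cc Δ x z))) = ρ (some (ρ' (cc Δ x z))) := if_neg (by omega)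
    rw [h4, hρ.fix (hmem x z)]
  · intro x y z hxy hk
    by_cases hy : dd Δ lev y z ≤ l + 1
    · have hx : ¬ dd Δ lev x z ≤ l + 1 := by
        intro hx
        have h4 := X.dd_ultra x z y
        rw [X.dd_symm z y, dd_ne hxy] at h4
        omega
      rw [h1 y z hy, hs.col_symm x y]
      exact (hfar y x z hxy.symm hy hx).swap23 hs
    · rw [h2 y z hy]
      exact hρ.hm x y z hxy

/-- The chain from a position to a constant position. -/
structure Chn (Δ : BStr ι D) (lev : (ι → Prop) → ℕ) (top : ℕ) (l : ℕ)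
    (ρ : Option (ι → Prop) → (ι → Prop)) where
  N : ℕ
  r : ℕ → Option (ι → Prop) → (ι → Prop)
  lv : ℕ → ℕ
  r0 : r 0 = ρ
  lv0 : lv 0 = l
  st : ∀ i ≤ N, St Δ lev (lv i) (r i)
  gl : ∀ i < N, Gl Δ lev top (r i) (r (i + 1)) ∧ lv i ≤ lv (i + 1)
  j : ι → Prop
  cst : ∀ x z, r N (cc Δ x z) = j

theorem Chn.cons {top l l' : ℕ} {ρ ρ' : Option (ι → Prop) → (ι → Prop)} (hρ : St Δ lev l ρ)
    (hG : Gl Δ lev top ρ ρ') (hl : l ≤ l') (h : Nonempty (Chn Δ lev top l' ρ')) :
    Nonempty (Chn Δ lev top l ρ) := by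
  obtain ⟨c⟩ := h
  refine ⟨{
    N := c.N + 1
    r := fun i => match i with
      | 0 => ρ
      | i + 1 => c.r i
    lv := fun i => match i with
      | 0 => l
      | i + 1 => c.lv i
    r0 := rfl
    lv0 := rfl
    st := ?_
    gl := ?_
    j := c.j
    cst := c.cst }⟩
  · intro i hi
    cases i with
    | zero => exact hρ
    | succ i => exact c.st i (by omega)
  · intro i hi
    cases i with
    | zero =>
      show Gl Δ lev top ρ (c.r 0) ∧ l ≤ c.lv 0
      rw [c.r0, c.lv0]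
      exact ⟨hG, hl⟩
    | succ i => exact c.gl i (by omega)

theorem Cx.exists_chn (X : Cx Δ lev) [Finite ι] [Infinite D] (hR : RamseyProperty Δ) {top : ℕ}
    (htop : ∀ a, Rl Δ a → lev a ≤ top) : ∀ n l, top - l ≤ n → ∀ k ρ, St Δ lev l ρ →
      (Vs Δ ρ).ncard ≤ k → Nonempty (Chn Δ lev top l ρ) := by
  obtain ⟨t⟩ := (inferInstance : Nonempty D)
  intro n
  induction n with
  | zero =>
    intro l hl k
    induction k with
    | zero =>
      intro ρ hρ hk
      exfalso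
      have hz : ρ none ∈ Vs Δ ρ := ⟨t, t, by rw [cc_self]⟩
      have h0 : (Vs Δ ρ).ncard = 0 := by omega
      rw [Set.ncard_eq_zero (Set.toFinite _)] at h0
      rw [h0] at hz
      exact hz
    | succ k ihk =>
      intro ρ hρ hk
      have hz : ρ none ∈ Vs Δ ρ := ⟨t, t, by rw [cc_self]⟩
      have hlt : l ≤ top := by
        have := htop _ (hρ.rl hz)
        rwa [hρ.lz] at this
      by_cases hfin : ∀ g, Near Δ lev l g → ∀ v ∈ Vs Δ ρ, ∀ w ∈ Vs Δ ρ, Tr Δ g v w → v = w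
      · have hinv := X.inv_le hR hρ hfin
        have hc : ∀ x z, ρ (cc Δ x z) = ρ none := by
          intro x z
          by_cases e : x = z
          · rw [e, cc_self]
          · rw [hinv x z z e (by
              have := htop _ ⟨x, z, e, rfl⟩
              omega), cc_self]
        exact ⟨⟨0, fun _ => ρ, fun _ => l, rfl, rfl, fun i _ => hρ,
          fun i hi => absurd hi (Nat.not_lt_zero i), ρ none, hc⟩⟩
      · push Not at hfin
        obtain ⟨g, hg, v₀, hv₀, w₀, hw₀, hadj, hne⟩ := hfin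
        obtain ⟨v, hv, μ, hμ, hne', hadj', hF⟩ := X.fold hρ hg hv₀ hw₀ hne hadj
        obtain ⟨ρ', h1, h2, h3, h4⟩ := X.fold_step hρ hg hv hμ hne' hadj' hF hlt
        apply Chn.cons hρ h2 le_rfl
        apply ihk ρ' h1
        have h5 : (Vs Δ ρ').ncard < (Vs Δ ρ).ncard :=
          Set.ncard_lt_ncard ⟨h3, fun h => h4 (h hv)⟩ (Set.toFinite _)
        omega
  | succ n ihn =>
    intro l hl k
    induction k with
    | zero =>
      intro ρ hρ hk
      exfalso
      have hz : ρ none ∈ Vs Δ ρ := ⟨t, t, by rw [cc_self]⟩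
      have h0 : (Vs Δ ρ).ncard = 0 := by omega
      rw [Set.ncard_eq_zero (Set.toFinite _)] at h0
      rw [h0] at hz
      exact hz
    | succ k ihk =>
      intro ρ hρ hk
      have hz : ρ none ∈ Vs Δ ρ := ⟨t, t, by rw [cc_self]⟩
      have hlt : l ≤ top := by
        have := htop _ (hρ.rl hz)
        rwa [hρ.lz] at this
      by_cases hfin : ∀ g, Near Δ lev l g → ∀ v ∈ Vs Δ ρ, ∀ w ∈ Vs Δ ρ, Tr Δ g v w → v = w
      · have hinv := X.inv_le hR hρ hfin
        by_cases hex : ∃ a, Rl Δ a ∧ l + 1 ≤ lev a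
        · obtain ⟨g, hg⟩ := X.exists_near (l + 1) hex
          have hgt := htop g hg.rl
          have hgl := hg.le
          obtain ⟨ρ', h1, h2⟩ := X.level_step hρ hinv hg hgt
          exact Chn.cons (l' := lev g) hρ h2 (by omega)
            (ihn (lev g) (by omega) _ ρ' h1 le_rfl)
        · have hc : ∀ x z, ρ (cc Δ x z) = ρ none := by
            intro x z
            by_cases e : x = z
            · rw [e, cc_self]
            · rw [hinv x z z e (by
                by_contra h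
                exact hex ⟨_, ⟨x, z, e, rfl⟩, by omega⟩), cc_self]
          exact ⟨⟨0, fun _ => ρ, fun _ => l, rfl, rfl, fun i _ => hρ,
            fun i hi => absurd hi (Nat.not_lt_zero i), ρ none, hc⟩⟩
      · push Not at hfin
        obtain ⟨g, hg, v₀, hv₀, w₀, hw₀, hadj, hne⟩ := hfin
        obtain ⟨v, hv, μ, hμ, hne', hadj', hF⟩ := X.fold hρ hg hv₀ hw₀ hne hadj
        obtain ⟨ρ', h1, h2, h3, h4⟩ := X.fold_step hρ hg hv hμ hne' hadj' hF hlt
        apply Chn.cons hρ h2 le_rfl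
        apply ihk ρ' h1
        have h5 : (Vs Δ ρ').ncard < (Vs Δ ρ).ncard :=
          Set.ncard_lt_ncard ⟨h3, fun h => h4 (h hv)⟩ (Set.toFinite _)
        omega

/-- The first position. -/
theorem Cx.first (X : Cx Δ lev) {g : ι → Prop} (hg : Near Δ lev 0 g) :
    St Δ lev (lev g) (fun u => u.getD g) := by
  have hs := X.hs
  refine ⟨?_, ?_, ?_, rfl, ?_⟩
  · intro x y z hxy
    by_cases hx : x = z
    · subst hx
      rw [cc_self, cc_ne hxy.symm, hs.col_symm y x]
      exact (hg.twin _ ⟨x, y, hxy, rfl⟩ (Nat.zero_le _)).swap12 hs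
    · by_cases hy : y = z
      · subst hy
        rw [cc_self, cc_ne hxy]
        exact (hg.twin _ ⟨x, y, hxy, rfl⟩ (Nat.zero_le _)).rot hs
      · rw [cc_ne hx, cc_ne hy]
        exact Tr.mk hxy hx hy
  · intro x y z hxy h
    have := X.near_min hg ⟨x, y, hxy, rfl⟩ (Nat.zero_le _)
    omega
  · intro x z
    by_cases hx : x = z
    · subst hx
      rw [cc_self]
      exact le_rfl
    · rw [cc_ne hx]
      exact X.near_min hg ⟨x, z, hx, rfl⟩ (Nat.zero_le _)
  · intro x z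
    rfl

end Pool.Agent.MP_f99268_lc
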