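import Pool.Agent.Lib.MP_f99268_lc.Defs

/-!
# Definitions: symmetric binary structures with bounds of size at most three

Structures with a linear order and finitely many symmetric irreflexive binary relations, whose
finite substructures are described by the allowed triangles of the order-free part, the order
being generic, or generic among the orders that are convex for a chain of equivalence relations.
-/

namespace Pool.Agent.MP_f99268_lc

variable {ι M D : Type}

/-- A structure with the order symbol and binary relation symbols `rel i`, `i : ι`. -/
abbrev BStr (ι M : Type) : Type := Str ι (fun _ => 2) M

/-- The colour of a pair: the set of the relations `rel i` which hold for it. -/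
def col (m : BStr ι M) (x y : M) : ι → Prop := fun i => m.rel i ![x, y]

/-- The relations other than the order are symmetric and irreflexive. -/
def SymIrr (m : BStr ι M) : Prop :=
  (∀ i x y, m.rel i ![x, y] → m.rel i ![y, x]) ∧ ∀ i x, ¬ m.rel i ![x, x]

/-- Every substructure of `m` with at most three elements embeds into `Δ` when the order is
forgotten. -/
def TriAllowed (Δ : BStr ι D) (m : BStr ι M) : Prop :=
  ∀ x y z : M, ∃ x' y' z' : D, (x' = y' ↔ x = y) ∧ (y' = z' ↔ y = z) ∧ (x' = z' ↔ x = z) ∧
    col Δ x' y' = col m x y ∧ col Δ y' z' = col m y z ∧ col Δ x' z' = col m x z

/-- The order is convex with respect to the levels of the colours: if `x < y < z` then the level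
of the colour of `(x, y)` is at most the level of the colour of `(x, z)`. -/
def OrdConvex (m : BStr ι M) (lev : (ι → Prop) → ℕ) : Prop :=
  ∀ x y z, m.lt x y → m.lt y z → lev (col m x y) ≤ lev (col m x z)

/-- `Δ` is a structure with symmetric irreflexive binary relations and a linear order such that:
the levels of the colours form an ultrametric (so that `lev (col Δ x y) ≤ l` is, on distinct
points, an equivalence relation for every `l`); the classes of these equivalence relations are
intervals; and every finite linearly ordered structure whose triangles are allowed and whose order
is convex in this sense embeds into `Δ`. If `lev` is constant, this says that the order is generic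
and that the order-free part of `Δ` is determined by its substructures of size at most three. -/
structure TriangleClass (Δ : BStr ι D) (lev : (ι → Prop) → ℕ) : Prop where
  symIrr : SymIrr Δ
  ultra : ∀ x y z, x ≠ y → y ≠ z → x ≠ z →
    lev (col Δ x z) ≤ max (lev (col Δ x y)) (lev (col Δ y z))
  convex : OrdConvex Δ lev
  emb : ∀ (M : Type) (_ : Finite M) (m : BStr ι M), IsStrictTotalOrder M m.lt → SymIrr m →
    TriAllowed Δ m → OrdConvex m lev → ∃ f : M → D, IsEmb m Δ f

end Pool.Agent.MP_f99268_lc
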