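import Pool.Agent.Lib.MP_f99268_lc.Final
import Pool.Agent.Lib.MP_f99268_lc_T.Defs

/-!
# One-point extensions
-/

namespace Pool.Agent.MP_f99268_lc

open Equiv Classical

variable {ι D : Type}

/-- Colours that occur. -/
def Rl (Δ : BStr ι D) (a : ι → Prop) : Prop := ∃ x y, x ≠ y ∧ col Δ x y = a

/-- Triangles that occur. -/
def Tr (Δ : BStr ι D) (a b c : ι → Prop) : Prop :=
  ∃ x y z : D, x ≠ y ∧ x ≠ z ∧ y ≠ z ∧ col Δ x y = a ∧ col Δ x z = b ∧ col Δ y z = c

theorem SymIrr.col_symm {Δ : BStr ι D} (h : SymIrr Δ) (x y : D) : col Δ x y = col Δ y x := by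
  funext i
  exact propext ⟨h.1 i x y, h.1 i y x⟩

theorem SymIrr.col_self {Δ : BStr ι D} (h : SymIrr Δ) (x : D) : col Δ x x = fun _ => False := by
  funext i
  exact propext ⟨h.2 i x, False.elim⟩

theorem col_aut {Δ : BStr ι D} {g : Perm D} (hg : g ∈ autG Δ) (x y : D) :
    col Δ (g x) (g y) = col Δ x y := by
  funext i
  have h := hg.2.2 i ![x, y]
  have e : (fun k => g (![x, y] k)) = ![g x, g y] := by
    funext k
    fin_cases k <;> rfl
  have h' : Δ.rel i (fun k => g (![x, y] k)) ↔ Δ.rel i ![x, y] := h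
  rw [e] at h'
  exact propext h'

theorem lt_aut {Δ : BStr ι D} {g : Perm D} (hg : g ∈ autG Δ) (x y : D) :
    Δ.lt (g x) (g y) ↔ Δ.lt x y := hg.2.1 x y

/-- A partial isomorphism extends. -/
theorem ext_of {Δ : BStr ι D} (hs : SymIrr Δ) (hΔ : Homogeneous Δ) {S : Set D} (hS : S.Finite)
    {f : D → D} (h : ∀ a ∈ S, ∀ b ∈ S, a ≠ b → f a ≠ f b ∧ col Δ (f a) (f b) = col Δ a b ∧
      (Δ.lt (f a) (f b) ↔ Δ.lt a b)) (hirr : ∀ a, ¬ Δ.lt a a) :
    ∃ g ∈ autG Δ, ∀ a ∈ S, g a = f a := by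
  apply hΔ.ext hS
  refine ⟨?_, ?_, ?_⟩
  · intro a ha b hb hab
    by_contra hne
    exact (h a ha b hb hne).1 hab
  · intro a ha b hb
    by_cases hab : a = b
    · subst hab
      exact iff_of_false (hirr _) (hirr _)
    · exact (h a ha b hb hab).2.2
  · intro i t ht
    have e : t = ![t 0, t 1] := by
      funext k
      fin_cases k <;> rfl
    have e' : (fun k => f (t k)) = ![f (t 0), f (t 1)] := by
      funext k
      fin_cases k <;> rfl
    rw [e', e]
    by_cases hab : t 0 = t 1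
    · have h1 : ¬ Δ.rel i ![t 0, t 1] := by
        rw [hab]
        exact hs.2 i _
      have h2 : ¬ Δ.rel i ![f (t 0), f (t 1)] := by
        rw [hab]
        exact hs.2 i _
      exact iff_of_false h2 h1
    · exact iff_of_eq (congrFun (h _ (ht 0) _ (ht 1) hab).2.1 i)

theorem Tr.swap12 {Δ : BStr ι D} (hs : SymIrr Δ) {a b c : ι → Prop} (h : Tr Δ a b c) :
    Tr Δ b a c := by
  obtain ⟨x, y, z, h1, h2, h3, rfl, rfl, rfl⟩ := h
  exact ⟨x, z, y, h2, h1, h3.symm, rfl, rfl, hs.col_symm _ _⟩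

theorem Tr.swap23 {Δ : BStr ι D} (hs : SymIrr Δ) {a b c : ι → Prop} (h : Tr Δ a b c) :
    Tr Δ a c b := by
  obtain ⟨x, y, z, h1, h2, h3, rfl, rfl, rfl⟩ := h
  exact ⟨y, x, z, h1.symm, h3, h2, hs.col_symm _ _, rfl, rfl⟩

theorem Tr.swap13 {Δ : BStr ι D} (hs : SymIrr Δ) {a b c : ι → Prop} (h : Tr Δ a b c) :
    Tr Δ c b a := ((h.swap12 hs).swap23 hs).swap12 hs

theorem Tr.rot {Δ : BStr ι D} (hs : SymIrr Δ) {a b c : ι → Prop} (h : Tr Δ a b c) :
    Tr Δ b c a := (h.swap12 hs).swap23 hs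

theorem Tr.rot' {Δ : BStr ι D} (hs : SymIrr Δ) {a b c : ι → Prop} (h : Tr Δ a b c) :
    Tr Δ c a b := (h.swap23 hs).swap12 hs

theorem Tr.mk {Δ : BStr ι D} {x y z : D} (h1 : x ≠ y) (h2 : x ≠ z) (h3 : y ≠ z) :
    Tr Δ (col Δ x y) (col Δ x z) (col Δ y z) := ⟨x, y, z, h1, h2, h3, rfl, rfl, rfl⟩

theorem Tr.rl {Δ : BStr ι D} {a b c : ι → Prop} (h : Tr Δ a b c) : Rl Δ a ∧ Rl Δ b ∧ Rl Δ c := by
  obtain ⟨x, y, z, h1, h2, h3, rfl, rfl, rfl⟩ := h
  exact ⟨⟨x, y, h1, rfl⟩, ⟨x, z, h2, rfl⟩, ⟨y, z, h3, rfl⟩⟩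

theorem Tr.lev_le {Δ : BStr ι D} {lev : (ι → Prop) → ℕ} (hT : TriangleClass Δ lev)
    {a b c : ι → Prop} (h : Tr Δ a b c) : lev a ≤ max (lev b) (lev c) := by
  obtain ⟨x, y, z, h1, h2, h3, rfl, rfl, rfl⟩ := h
  have := hT.ultra x z y h2 h3.symm h1
  rwa [hT.symIrr.col_symm z y] at this

/-- One-point extensions. -/
theorem TriangleClass.ext {Δ : BStr ι D} {lev : (ι → Prop) → ℕ} (hT : TriangleClass Δ lev)
    (hlin : IsStrictTotalOrder D Δ.lt) (hΔ : Homogeneous Δ) (X : Finset D) (p : D → ι → Prop)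
    (L : D → Prop) (hp1 : ∀ x ∈ X, Rl Δ (p x))
    (hp2 : ∀ x ∈ X, ∀ y ∈ X, x ≠ y → Tr Δ (col Δ x y) (p x) (p y))
    (hL : ∀ x ∈ X, ∀ y ∈ X, Δ.lt x y → L y → L x)
    (h1 : ∀ x ∈ X, ∀ y ∈ X, Δ.lt x y → L y → lev (col Δ x y) ≤ lev (p x))
    (h2 : ∀ x ∈ X, ∀ y ∈ X, L x → ¬ L y → lev (p x) ≤ lev (col Δ x y))
    (h3 : ∀ x ∈ X, ∀ y ∈ X, ¬ L x → Δ.lt x y → lev (p x) ≤ lev (p y)) [Nonempty D] :
    ∃ d, d ∉ X ∧ ∀ x ∈ X, col Δ d x = p x ∧ (Δ.lt x d ↔ L x) := by
  have hs := hT.symIrr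
  have hirr : ∀ a, ¬ Δ.lt a a := fun a => hlin.irrefl a
  have htr : ∀ a b c, Δ.lt a b → Δ.lt b c → Δ.lt a c := fun a b c => hlin.trans a b c
  have htri : ∀ a b, ¬ Δ.lt a b → ¬ Δ.lt b a → a = b := fun a b => hlin.trichotomous a b
  let R : ι → Option {x // x ∈ X} → Option {x // x ∈ X} → Prop := fun i u v =>
    match u, v with
    | some x, some y => Δ.rel i ![(x : D), (y : D)]
    | some x, none => p x i
    | none, some y => p y i
    | none, none => False
  let m : BStr ι (Option {x // x ∈ X}) :=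
    { lt := fun u v =>
        match u, v with
        | some x, some y => Δ.lt x y
        | some x, none => L x
        | none, some y => ¬ L y
        | none, none => False
      rel := fun i t => R i (t 0) (t 1) }
  have hcol : ∀ u v, col m u v = fun i => R i u v := fun u v => rfl
  have hcss : ∀ x y : {x // x ∈ X}, col m (some x) (some y) = col Δ x y := fun x y => rfl
  have hcsn : ∀ x : {x // x ∈ X}, col m (some x) none = p x := fun x => rfl
  have hcns : ∀ x : {x // x ∈ X}, col m none (some x) = p x := fun x => rfl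
  have hcnn : col m none none = fun _ => False := rfl
  have hlin' : IsStrictTotalOrder (Option {x // x ∈ X}) m.lt :=
    { trichotomous := by
        rintro (_ | x) (_ | y) h1 h2
        · rfl
        · exact absurd h2 h1
        · exact absurd h1 h2
        · exact congrArg some (Subtype.ext (htri _ _ h1 h2))
      irrefl := by
        rintro (_ | x) h
        · exact h
        · exact hirr _ h
      trans := by
        rintro (_ | x) (_ | y) (_ | z) ha hb
        · exact ha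
        · exact ha.elim
        · exact absurd hb ha
        · intro hz
          exact ha (hL _ y.2 _ z.2 hb hz)
        · exact hb.elim
        · show Δ.lt x z
          by_contra hxz
          by_cases e : (x : D) = z
          · exact hb (e ▸ ha)
          · exact hb (hL _ z.2 _ x.2 (by
              by_contra hzx
              exact e (htri _ _ hxz hzx)) ha)
        · exact hL _ x.2 _ y.2 ha hb
        · exact htr _ _ _ ha hb }
  have hsym : SymIrr m := by
    refine ⟨?_, ?_⟩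
    · rintro i (_ | x) (_ | y) h
      · exact h
      · exact h
      · exact h
      · exact hs.1 i _ _ h
    · rintro i (_ | x) h
      · exact h
      · exact hs.2 i _ h
  obtain ⟨d0⟩ := (inferInstance : Nonempty D)
  -- the triangles
  have htri' : TriAllowed Δ m := by
    have key : ∀ x y : {x // x ∈ X}, ∃ x' y' z' : D, (x' = y' ↔ (x : D) = y) ∧ x' ≠ z' ∧ y' ≠ z' ∧
        col Δ x' y' = col Δ x y ∧ col Δ x' z' = p x ∧ col Δ y' z' = p y := by
      intro x y
      by_cases e : (x : D) = y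
      · obtain ⟨a, b, hab, hc⟩ := hp1 x x.2
        have e' : x = y := Subtype.ext e
        subst e'
        exact ⟨a, a, b, by simp, hab, hab, by rw [hs.col_self, hs.col_self], hc, hc⟩
      · obtain ⟨a, b, c, hab, hac, hbc, e1, e2, e3⟩ := hp2 x x.2 y y.2 e
        exact ⟨a, b, c, by simp [hab, e], hac, hbc, e1, e2, e3⟩
    have hsi : ∀ x y : {x // x ∈ X}, ((x : D) = y ↔ (some x : Option {x // x ∈ X}) = some y) :=
      fun x y => ⟨fun h => congrArg some (Subtype.ext h), fun h => by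
        injection h with h
        rw [h]⟩
    rintro (_ | x) (_ | y) (_ | z)
    · exact ⟨d0, d0, d0, by simp, by simp, by simp, by rw [hs.col_self, hcnn],
        by rw [hs.col_self, hcnn], by rw [hs.col_self, hcnn]⟩
    · obtain ⟨a, b, hab, hc⟩ := hp1 z z.2
      exact ⟨a, a, b, by simp, by simp [hab], by simp [hab], by rw [hs.col_self, hcnn],
        by rw [hc, hcns], by rw [hc, hcns]⟩
    · obtain ⟨a, b, hab, hc⟩ := hp1 y y.2
      exact ⟨a, b, a, by simp [hab], by simp [hab.symm], by simp, by rw [hc, hcns],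
        by rw [hs.col_symm, hc, hcsn], by rw [hs.col_self, hcnn]⟩
    · obtain ⟨a, b, c, h1, h2, h3, h4, h5, h6⟩ := key y z
      refine ⟨c, a, b, by simp [h2.symm], h1.trans (hsi _ _), by simp [h3.symm], ?_, ?_, ?_⟩
      · rw [hs.col_symm, h5, hcns]
      · rw [h4, hcss]
      · rw [hs.col_symm, h6, hcns]
    · obtain ⟨a, b, hab, hc⟩ := hp1 x x.2
      exact ⟨a, b, b, by simp [hab], by simp, by simp [hab], by rw [hc, hcsn],
        by rw [hs.col_self, hcnn], by rw [hc, hcsn]⟩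
    · obtain ⟨a, b, c, h1, h2, h3, h4, h5, h6⟩ := key x z
      refine ⟨a, c, b, by simp [h2], by simp [h3.symm], h1.trans (hsi _ _), ?_, ?_, ?_⟩
      · rw [h5, hcsn]
      · rw [hs.col_symm, h6, hcns]
      · rw [h4, hcss]
    · obtain ⟨a, b, c, h1, h2, h3, h4, h5, h6⟩ := key x y
      refine ⟨a, b, c, h1.trans (hsi _ _), by simp [h3], by simp [h2], ?_, ?_, ?_⟩
      · rw [h4, hcss]
      · rw [h6, hcsn]
      · rw [h5, hcsn]
    · refine ⟨x, y, z, hsi _ _, hsi _ _, hsi _ _, ?_, ?_, ?_⟩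
      · rw [hcss]
      · rw [hcss]
      · rw [hcss]
  have hconv : OrdConvex m lev := by
    rintro (_ | x) (_ | y) (_ | z) ha hb
    · exact ha.elim
    · exact ha.elim
    · exact absurd hb ha
    · rw [hcns, hcns]
      exact h3 _ y.2 _ z.2 ha hb
    · exact hb.elim
    · rw [hcsn, hcss]
      exact h2 _ x.2 _ z.2 ha hb
    · rw [hcss, hcsn]
      exact h1 _ x.2 _ y.2 ha hb
    · rw [hcss, hcss]
      exact hT.convex _ _ _ ha hb
  obtain ⟨f, hf1, hf2, hf3⟩ := hT.emb _ inferInstance m hlin' hsym htri' hconv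
  have hfcol : ∀ u v, col Δ (f u) (f v) = col m u v := by
    intro u v
    funext i
    have h := hf3 i ![u, v]
    have e : (fun k => f (![u, v] k)) = ![f u, f v] := by
      funext k
      fin_cases k <;> rfl
    have h' : Δ.rel i (fun k => f (![u, v] k)) ↔ m.rel i ![u, v] := h
    rw [e] at h'
    exact propext h'
  -- move it back
  let F : D → D := fun a => if h : a ∈ X then f (some ⟨a, h⟩) else a
  have hF : ∀ a (h : a ∈ X), F a = f (some ⟨a, h⟩) := fun a h => dif_pos h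
  obtain ⟨g, hg, hgF⟩ := ext_of hs hΔ (S := (X : Set D)) (Finset.finite_toSet X) (f := F) (by
    intro a ha b hb hab
    rw [hF a ha, hF b hb]
    refine ⟨fun e => hab ?_, ?_, ?_⟩
    · have := hf1 e
      simpa using this
    · rw [hfcol, hcss]
    · exact hf2 _ _) hirr
  refine ⟨g⁻¹ (f none), ?_, ?_⟩
  · intro hd
    have h4 := hgF _ hd
    rw [hF _ hd] at h4
    have h5 : f none = f (some ⟨g⁻¹ (f none), hd⟩) := by
      rw [← h4]
      simp
    have := hf1 h5
    simp at this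
  · intro x hx
    have h4 := hgF _ hx
    rw [hF _ hx] at h4
    refine ⟨?_, ?_⟩
    · rw [← col_aut hg, h4]
      have : g (g⁻¹ (f none)) = f none := g.apply_symm_apply _
      rw [this, hfcol, hcns]
    · rw [← lt_aut hg, h4]
      have : g (g⁻¹ (f none)) = f none := g.apply_symm_apply _
      rw [this, hf2]

end Pool.Agent.MP_f99268_lc
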