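import Pool.Agent.Lib.MP_f99268_lc_T.Inf

/-!
# The fold lemma
-/

namespace Pool.Agent.MP_f99268_lc

open Equiv Classical

variable {ι D : Type}

/-- The colour of a pair, `none` on the diagonal. -/
noncomputable def cc (Δ : BStr ι D) (x y : D) : Option (ι → Prop) :=
  if x = y then none else some (col Δ x y)

/-- A position of level `l`: the copy of `x` has the colour `ρ (cc Δ x z)` to `z`. -/
structure St (Δ : BStr ι D) (lev : (ι → Prop) → ℕ) (l : ℕ)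
    (ρ : Option (ι → Prop) → (ι → Prop)) : Prop where
  hm : ∀ x y z, x ≠ y → Tr Δ (col Δ x y) (ρ (cc Δ x z)) (ρ (cc Δ y z))
  inv : ∀ x y z, x ≠ y → lev (col Δ x y) < l → ρ (cc Δ x z) = ρ (cc Δ y z)
  low : ∀ x z, l ≤ lev (ρ (cc Δ x z))
  lz : lev (ρ none) = l
  idem : ∀ x z, ρ (some (ρ (cc Δ x z))) = ρ (cc Δ x z)

/-- The colours used by a position. -/
def Vs (Δ : BStr ι D) (ρ : Option (ι → Prop) → (ι → Prop)) : Set (ι → Prop) :=
  {v | ∃ x z, ρ (cc Δ x z) = v}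

variable {Δ : BStr ι D} {lev : (ι → Prop) → ℕ} {l : ℕ} {ρ : Option (ι → Prop) → (ι → Prop)}

theorem cc_self (x : D) : cc Δ x x = none := if_pos rfl

theorem cc_ne {x y : D} (h : x ≠ y) : cc Δ x y = some (col Δ x y) := if_neg h

theorem Cx.cc_symm (X : Cx Δ lev) (x y : D) : cc Δ x y = cc Δ y x := by
  by_cases h : x = y
  · rw [h]
  · rw [cc_ne h, cc_ne (Ne.symm h), X.hs.col_symm]

theorem cc_aut {g : Perm D} (hg : g ∈ autG Δ) (x y : D) : cc Δ (g x) (g y) = cc Δ x y := by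
  by_cases h : x = y
  · rw [h, cc_self, cc_self]
  · rw [cc_ne h, cc_ne (fun e => h (g.injective e)), col_aut hg]

theorem rl_cc {a : ι → Prop} (ha : Rl Δ a) : ∃ x z, cc Δ x z = some a := by
  obtain ⟨x, z, h, rfl⟩ := ha
  exact ⟨x, z, cc_ne h⟩

namespace St

variable (hρ : St Δ lev l ρ)

include hρ

theorem fix {v : ι → Prop} (hv : v ∈ Vs Δ ρ) : ρ (some v) = v := by
  obtain ⟨x, z, rfl⟩ := hv
  exact hρ.idem x z

theorem le {v : ι → Prop} (hv : v ∈ Vs Δ ρ) : l ≤ lev v := by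
  obtain ⟨x, z, rfl⟩ := hv
  exact hρ.low x z

theorem rl [Infinite D] {v : ι → Prop} (hv : v ∈ Vs Δ ρ) : Rl Δ v := by
  obtain ⟨x, z, rfl⟩ := hv
  obtain ⟨y, hy⟩ := exists_ne x
  exact (hρ.hm x y z hy.symm).rl.2.1

theorem mem_some {a : ι → Prop} (ha : Rl Δ a) : ρ (some a) ∈ Vs Δ ρ := by
  have _h := hρ.lz
  obtain ⟨x, z, h⟩ := rl_cc ha
  exact ⟨x, z, by rw [h]⟩

theorem hom {a b c : ι → Prop} (h : Tr Δ a b c) : Tr Δ a (ρ (some b)) (ρ (some c)) := by
  obtain ⟨x, y, z, h1, h2, h3, rfl, rfl, rfl⟩ := h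
  have := hρ.hm x y z h1
  rwa [cc_ne h2, cc_ne h3] at this

end St

/-- Admissible modifications of the type of `t`. -/
structure Adm (Δ : BStr ι D) (ρ : Option (ι → Prop) → (ι → Prop)) (g : ι → Prop) (t z : D)
    (μ : ι → Prop) : Prop where
  ne : z ≠ t
  lab : col Δ t z ∈ Vs Δ ρ
  mem : μ ∈ Vs Δ ρ
  nee : μ ≠ col Δ t z
  adj : Tr Δ g (col Δ t z) μ

/-- The conflicts of a modification. -/
def Cf (Δ : BStr ι D) (ρ : Option (ι → Prop) → (ι → Prop)) (t z : D) (μ : ι → Prop) : Set D :=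
  {y | y ≠ t ∧ y ≠ z ∧ col Δ t y ∈ Vs Δ ρ ∧ ¬ Tr Δ (col Δ z y) μ (col Δ t y)}

namespace Cx

variable (X : Cx Δ lev)

include X

theorem next [Finite ι] [Infinite D] (hρ : St Δ lev l ρ) {g : ι → Prop} (hg : Near Δ lev l g)
    {t z : D} {μ : ι → Prop} (h : Adm Δ ρ g t z μ) {z₁ : D} (hz₁ : z₁ ∈ Cf Δ ρ t z μ) :
    ∃ μ₁, Adm Δ ρ g t z₁ μ₁ ∧ Cf Δ ρ t z₁ μ₁ ⊆ insert z (Cf Δ ρ t z μ) := by
  have hs := X.hs
  let S : Set D := {x | x = t ∨ x = z ∨ (x ≠ t ∧ x ≠ z ∧ col Δ t x ∈ Vs Δ ρ ∧ x ∉ Cf Δ ρ t z μ)}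
  let p : D → ι → Prop := fun x => if x = t then g else if x = z then μ else col Δ t x
  have hpt : p t = g := if_pos rfl
  have hpz : p z = μ := by
    show (if z = t then g else if z = z then μ else col Δ t z) = μ
    rw [if_neg h.ne, if_pos rfl]
  have hpx : ∀ x, x ≠ t → x ≠ z → p x = col Δ t x := by
    intro x hx1 hx2
    show (if x = t then g else if x = z then μ else col Δ t x) = _
    rw [if_neg hx1, if_neg hx2]
  have hnc : ∀ x, x ≠ t → x ≠ z → col Δ t x ∈ Vs Δ ρ → x ∉ Cf Δ ρ t z μ →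
      Tr Δ (col Δ z x) μ (col Δ t x) := by
    intro x h1 h2 h3 h4
    by_contra h5
    exact h4 ⟨h1, h2, h3, h5⟩
  have hleg : Leg Δ S p := by
    refine ⟨?_, ?_⟩
    · rintro x (rfl | rfl | ⟨h1, h2, h3, -⟩)
      · rw [hpt]
        exact hg.rl
      · rw [hpz]
        exact hρ.rl h.mem
      · rw [hpx x h1 h2]
        exact hρ.rl h3
    · rintro x (rfl | rfl | ⟨h1, h2, h3, h4⟩) y (rfl | rfl | ⟨k1, k2, k3, k4⟩) hxy
      · exact absurd rfl hxy
      · rw [hpt, hpz]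
        exact h.adj.swap12 hs
      · rw [hpt, hpx y k1 k2]
        exact (hg.twin _ (hρ.rl k3) (hρ.le k3)).swap12 hs
      · rw [hpt, hpz, hs.col_symm]
        exact h.adj.rot hs
      · exact absurd rfl hxy
      · rw [hpz, hpx y k1 k2]
        exact hnc y k1 k2 k3 k4
      · rw [hpt, hpx x h1 h2, hs.col_symm]
        exact (hg.twin _ (hρ.rl h3) (hρ.le h3)).rot hs
      · rw [hpz, hpx x h1 h2, hs.col_symm]
        exact (hnc x h1 h2 h3 h4).swap23 hs
      · rw [hpx x h1 h2, hpx y k1 k2]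
        exact X.tr_mk hxy h1 k1
  obtain ⟨q, hq, hqp⟩ := X.inf_ext hleg
  have hqt : q t = g := (hqp t (Or.inl rfl)).trans hpt
  have hqz : q z = μ := (hqp z (Or.inr (Or.inl rfl))).trans hpz
  have hmz : ρ (some (q z)) = μ := by rw [hqz, hρ.fix h.mem]
  have htr : ∀ x y, x ≠ y → Tr Δ (col Δ x y) (ρ (some (q x))) (ρ (some (q y))) := fun x y hxy =>
    hρ.hom (hq.2 x (Set.mem_univ x) y (Set.mem_univ y) hxy)
  obtain ⟨h1, h2, h3, h4⟩ := hz₁
  refine ⟨ρ (some (q z₁)), ⟨h1, h3, hρ.mem_some (hq.1 _ (Set.mem_univ _)), ?_, ?_⟩, ?_⟩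
  · intro e
    have h5 := htr z z₁ h2.symm
    rw [hmz, e] at h5
    exact h4 h5
  · have h5 := hq.2 t (Set.mem_univ _) z₁ (Set.mem_univ _) h1.symm
    rw [hqt] at h5
    have h6 := hρ.hom (h5.swap12 hs)
    rwa [hρ.fix h3] at h6
  · rintro y ⟨k1, k2, k3, k4⟩
    by_contra hy
    rw [Set.mem_insert_iff, not_or] at hy
    have h5 : q y = col Δ t y :=
      (hqp y (Or.inr (Or.inr ⟨k1, hy.1, k3, hy.2⟩))).trans (hpx y k1 hy.1)
    have h6 := htr z₁ y k2.symm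
    rw [h5, hρ.fix k3] at h6
    exact k4 h6

/-- The fold lemma. -/
theorem fold [Finite ι] [Infinite D] (hρ : St Δ lev l ρ) {g : ι → Prop} (hg : Near Δ lev l g)
    {v₀ μ₀ : ι → Prop} (hv₀ : v₀ ∈ Vs Δ ρ) (hμ₀ : μ₀ ∈ Vs Δ ρ) (hne : v₀ ≠ μ₀)
    (hadj : Tr Δ g v₀ μ₀) :
    ∃ v ∈ Vs Δ ρ, ∃ μ ∈ Vs Δ ρ, v ≠ μ ∧ Tr Δ g v μ ∧
      ∀ a w, w ∈ Vs Δ ρ → l ≤ lev a → Tr Δ a v w → Tr Δ a μ w := by
  by_contra hcon
  push Not at hcon
  have hs := X.hs
  obtain ⟨t⟩ := (inferInstance : Nonempty D)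
  -- one step
  have hstep : ∀ (Y : Finset D) (z : D) (μ : ι → Prop), Adm Δ ρ g t z μ →
      ∃ z₁ μ₁, z₁ ∉ Y ∧ z₁ ∈ Cf Δ ρ t z μ ∧ Adm Δ ρ g t z₁ μ₁ ∧
        Cf Δ ρ t z₁ μ₁ ⊆ insert z (Cf Δ ρ t z μ) ∧ ∀ x ∈ Y, l ≤ lev (col Δ x z₁) := by
    intro Y z μ h
    obtain ⟨a, w, hw, hla, h1, h2⟩ := hcon _ h.lab μ h.mem h.nee.symm h.adj
    let p : D → ι → Prop := fun x => if x = t then w else a
    have hpt : p t = w := if_pos rfl
    have hpz : p z = a := if_neg h.ne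
    obtain ⟨z₁, hz1, hz2, hz3, hz4⟩ := X.far_ext hg {t, z} Y (p := p) (by
      refine ⟨fun x hx => ?_, fun x hx y hy hxy => ?_⟩
      · rw [Finset.mem_coe, Finset.mem_insert, Finset.mem_singleton] at hx
        rcases hx with rfl | rfl
        · rw [hpt]
          exact hρ.rl hw
        · rw [hpz]
          exact h1.rl.1
      · rw [Finset.mem_coe, Finset.mem_insert, Finset.mem_singleton] at hx hy
        rcases hx with rfl | rfl <;> rcases hy with rfl | rfl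
        · exact absurd rfl hxy
        · rw [hpt, hpz]
          exact h1.rot hs
        · rw [hpt, hpz, hs.col_symm]
          exact h1.swap12 hs
        · exact absurd rfl hxy) (by
      intro x hx
      rw [Finset.mem_insert, Finset.mem_singleton] at hx
      rcases hx with rfl | rfl
      · rw [hpt]
        exact hρ.le hw
      · rw [hpz]
        exact hla)
    have ht : col Δ t z₁ = w := by
      rw [hs.col_symm, hz3 t (Finset.mem_insert_self _ _), hpt]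
    have hz : col Δ z z₁ = a := by
      rw [hs.col_symm, hz3 z (by simp), hpz]
    have hmem : z₁ ∈ Cf Δ ρ t z μ := by
      refine ⟨fun e => hz1 (by simp [e]), fun e => hz1 (by simp [e]), ?_, ?_⟩
      · rw [ht]
        exact hw
      · rw [ht, hz]
        exact h2
    obtain ⟨μ₁, h3, h4⟩ := X.next hρ hg h hmem
    exact ⟨z₁, μ₁, hz2, hmem, h3, h4, fun x hx => by
      rw [hs.col_symm]
      exact hz4 x hx⟩
  -- the first point
  obtain ⟨z₀, hz₀t, hz₀⟩ := X.exists_col t (hρ.rl hv₀)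
  have hadm₀ : Adm Δ ρ g t z₀ μ₀ := ⟨hz₀t, by rwa [hz₀], hμ₀, by rw [hz₀]; exact hne.symm,
    by rwa [hz₀]⟩
  let σ : Type := {s : Finset D × D × (ι → Prop) //
    t ∈ s.1 ∧ s.2.1 ∈ s.1 ∧ Adm Δ ρ g t s.2.1 s.2.2}
  have hnext : ∀ s : σ, ∃ s' : σ, s.1.1 ⊆ s'.1.1 ∧ s'.1.2.1 ∉ s.1.1 ∧
      s'.1.2.1 ∈ Cf Δ ρ t s.1.2.1 s.1.2.2 ∧
      Cf Δ ρ t s'.1.2.1 s'.1.2.2 ⊆ insert s.1.2.1 (Cf Δ ρ t s.1.2.1 s.1.2.2) ∧
      ∀ x ∈ s.1.1, l ≤ lev (col Δ x s'.1.2.1) := by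
    rintro ⟨⟨Y, z, μ⟩, h1, h2, h3⟩
    obtain ⟨z₁, μ₁, k1, k2, k3, k4, k5⟩ := hstep Y z μ h3
    exact ⟨⟨⟨insert z₁ Y, z₁, μ₁⟩, Finset.mem_insert_of_mem h1, Finset.mem_insert_self _ _, k3⟩,
      Finset.subset_insert _ _, k1, k2, k4, k5⟩
  choose nx hn1 hn2 hn3 hn4 hn5 using hnext
  let s₀ : σ := ⟨⟨{t, z₀}, z₀, μ₀⟩, by simp, by simp, hadm₀⟩
  let sq : ℕ → σ := fun n => Nat.rec s₀ (fun _ s => nx s) n
  have hsq : ∀ n, sq (n + 1) = nx (sq n) := fun n => rfl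
  have hmono : ∀ i k, i ≤ k → (sq i).1.1 ⊆ (sq k).1.1 := by
    intro i k hik
    induction k, hik using Nat.le_induction with
    | base => exact subset_rfl
    | succ k _ ih =>
      rw [hsq]
      exact ih.trans (hn1 _)
  have hnest : ∀ i k, i ≤ k → ∀ y ∈ Cf Δ ρ t (sq k).1.2.1 (sq k).1.2.2,
      y ∈ (sq k).1.1 ∨ y ∈ Cf Δ ρ t (sq i).1.2.1 (sq i).1.2.2 := by
    intro i k hik
    induction k, hik using Nat.le_induction with
    | base => exact fun y hy => Or.inr hy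
    | succ k _ ih =>
      intro y hy
      rw [hsq] at hy ⊢
      rcases hn4 _ hy with h | h
      · left
        rw [h]
        exact hn1 _ (sq k).2.2.1
      · rcases ih y h with h' | h'
        · exact Or.inl (hn1 _ h')
        · exact Or.inr h'
  obtain ⟨i, k, hik, he⟩ : ∃ i k, i < k ∧
      (col Δ t (sq i).1.2.1, (sq i).1.2.2) = (col Δ t (sq k).1.2.1, (sq k).1.2.2) := by
    obtain ⟨i, k, hne, he⟩ := Finite.exists_ne_map_eq_of_infinite
      (fun n : ℕ => (col Δ t (sq n).1.2.1, (sq n).1.2.2))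
    rcases lt_or_gt_of_ne hne with h | h
    · exact ⟨i, k, h, he⟩
    · exact ⟨k, i, h, he.symm⟩
  obtain ⟨k, rfl⟩ : ∃ k', k = k' + 1 := ⟨k - 1, by omega⟩
  have hik' : i ≤ k := by omega
  set zi := (sq i).1.2.1 with hzi
  set zk := (sq (k + 1)).1.2.1 with hzk
  have e1 : col Δ t zi = col Δ t zk := (Prod.ext_iff.1 he).1
  have e2 : (sq i).1.2.2 = (sq (k + 1)).1.2.2 := (Prod.ext_iff.1 he).2
  have hzkn : zk ∉ (sq k).1.1 := hn2 (sq k)
  have hzik : zi ∈ (sq k).1.1 := hmono i k hik' (sq i).2.2.1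
  have hadi := (sq i).2.2.2
  have hzne : zi ≠ zk := fun e => hzkn (e ▸ hzik)
  have hconf : zk ∈ Cf Δ ρ t zi (sq i).1.2.2 := by
    rcases hnest i k hik' zk (hn3 (sq k)) with h | h
    · exact absurd h hzkn
    · exact h
  have hlam : l ≤ lev (col Δ zi zk) := hn5 (sq k) zi hzik
  have hzit : zi ≠ t := hadi.ne
  have hzkt : zk ≠ t := hconf.1
  have hlabv : col Δ t zi ∈ Vs Δ ρ := hadi.lab
  -- the last point
  let p : D → ι → Prop := fun x => if x = t then col Δ t zi else if x = zi then g else col Δ zi zk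
  have hpt : p t = col Δ t zi := if_pos rfl
  have hpi : p zi = g := by
    show (if zi = t then col Δ t zi else if zi = zi then g else col Δ zi zk) = g
    rw [if_neg hzit, if_pos rfl]
  have hpk : p zk = col Δ zi zk := by
    show (if zk = t then col Δ t zi else if zk = zi then g else col Δ zi zk) = _
    rw [if_neg hzkt, if_neg hzne.symm]
  have hti : Tr Δ (col Δ t zi) (col Δ t zi) g :=
    (hg.twin _ (hρ.rl hlabv) (hρ.le hlabv)).rot hs
  have htk : Tr Δ (col Δ t zk) (col Δ t zi) (col Δ zi zk) := by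
    have h := Tr.mk (Δ := Δ) hzit.symm hzkt.symm hzne
    exact h.swap12 hs
  have hik2 : Tr Δ (col Δ zi zk) g (col Δ zi zk) :=
    (hg.twin _ ⟨zi, zk, hzne, rfl⟩ hlam).swap12 hs
  obtain ⟨d, hd1, hd2, hd3⟩ := X.ext_avoid {t, zi, zk} (sq (k + 1)).1.1 (p := p) (by
    refine ⟨fun x hx => ?_, fun x hx y hy hxy => ?_⟩
    · rw [Finset.mem_coe, Finset.mem_insert, Finset.mem_insert, Finset.mem_singleton] at hx
      rcases hx with h | h | h
      · rw [h, hpt]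
        exact hρ.rl hlabv
      · rw [h, hpi]
        exact hg.rl
      · rw [h, hpk]
        exact ⟨zi, zk, hzne, rfl⟩
    · rw [Finset.mem_coe, Finset.mem_insert, Finset.mem_insert, Finset.mem_singleton] at hx hy
      rcases hx with h | h | h <;> rcases hy with h' | h' | h'
      · exact absurd (h.trans h'.symm) hxy
      · rw [h, h', hpt, hpi]
        exact hti
      · rw [h, h', hpt, hpk]
        exact htk
      · rw [h, h', hpt, hpi, hs.col_symm]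
        exact hti.swap23 hs
      · exact absurd (h.trans h'.symm) hxy
      · rw [h, h', hpi, hpk]
        exact hik2
      · rw [h, h', hpt, hpk, hs.col_symm zk t]
        exact htk.swap23 hs
      · rw [h, h', hpi, hpk, hs.col_symm zk zi]
        exact hik2.swap23 hs
      · exact absurd (h.trans h'.symm) hxy)
  have hdt : col Δ t d = col Δ t zi := by
    rw [hs.col_symm, hd3 t (by simp), hpt]
  have hdi : col Δ zi d = g := by
    rw [hs.col_symm, hd3 zi (by simp), hpi]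
  have hdk : col Δ zk d = col Δ zi zk := by
    rw [hs.col_symm, hd3 zk (by simp), hpk]
  have hdc : d ∈ Cf Δ ρ t zk (sq (k + 1)).1.2.2 := by
    refine ⟨fun e => hd1 (by simp [e]), fun e => hd1 (by simp [e]), ?_, ?_⟩
    · rw [hdt]
      exact hlabv
    · rw [hdk, hdt, e1, ← e2]
      exact hconf.2.2.2
  rcases hnest i (k + 1) (by omega) d hdc with h | h
  · exact hd2 h
  · apply h.2.2.2
    rw [← hzi, hdi, hdt]
    exact hadi.adj.swap23 hs

end Cx

end Pool.Agent.MP_f99268_lc
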