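import Pool.Agent.Lib.MP_f99268_lc_T.Step

/-!
# The glueing chain and the theorem
-/

namespace Pool.Agent.MP_f99268_lc

open Equiv Classical

variable {ι D : Type} {Δ : BStr ι D} {lev : (ι → Prop) → ℕ} {l : ℕ}
  {ρ : Option (ι → Prop) → (ι → Prop)}

theorem dd_of_cc {b y s : D} (h : cc Δ b y = cc Δ b s) : dd Δ lev b y = dd Δ lev b s := by
  by_cases h1 : b = y
  · by_cases h2 : b = s
    · rw [← h1, ← h2]
    · rw [h1, cc_self, ← h1, cc_ne h2] at h
      exact absurd h (by simp)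
  · by_cases h2 : b = s
    · rw [cc_ne h1, ← h2, cc_self] at h
      exact absurd h (by simp)
    · rw [cc_ne h1, cc_ne h2] at h
      injection h with h
      rw [dd_ne h1, dd_ne h2, h]

/-- `Y` is on the side `r` of `B`, with the colour `j`. -/
def Sd (Δ : BStr ι D) (r : D → D → Prop) (j : ι → Prop) (B Y : Set D) : Prop :=
  ∀ b ∈ B, ∀ y ∈ Y, r b y ∧ col Δ b y = j

theorem Cx.sd_orb (X : Cx Δ lev) {r : D → D → Prop}
    (hr : r = Δ.lt ∨ r = fun a b => Δ.lt b a) {j : ι → Prop} {B : Finset D} {α : Type} [Finite α]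
    {x y : α → D} (h : Orb (autG Δ) ∅ x y) (hx : Sd Δ r j B (Set.range x))
    (hy : Sd Δ r j B (Set.range y)) : Orb (autG Δ) B x y := by
  have hs := X.hs
  have hirr : ∀ a, ¬ r a a := by
    rcases hr with rfl | rfl
    · exact X.irr
    · exact X.irr
  have hlt : ∀ b ∈ B, ∀ i, (Δ.lt b (y i) ↔ Δ.lt b (x i)) ∧ (Δ.lt (y i) b ↔ Δ.lt (x i) b) := by
    intro b hb i
    have h1 := (hx b hb _ ⟨i, rfl⟩).1
    have h2 := (hy b hb _ ⟨i, rfl⟩).1
    rcases hr with rfl | rfl
    · exact ⟨iff_of_true h2 h1, iff_of_false (X.asym h2) (X.asym h1)⟩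
    · exact ⟨iff_of_false (X.asym h2) (X.asym h1), iff_of_true h2 h1⟩
  have hxB : ∀ i, x i ∉ B := fun i hi => hirr _ (hx _ hi _ ⟨i, rfl⟩).1
  have hyB : ∀ i, y i ∉ B := fun i hi => hirr _ (hy _ hi _ ⟨i, rfl⟩).1
  obtain ⟨g₀, hg₀, h0⟩ := h
  have hg₀' : g₀ ∈ autG Δ := st_le hg₀
  have i1 : ∀ b ∈ B, (if b ∈ B then b else g₀ b) = b := fun b hb => if_pos hb
  have i2 : ∀ i, (if x i ∈ B then x i else g₀ (x i)) = y i := fun i => by
    rw [if_neg (hxB i), h0]
  obtain ⟨g, hg, hgf⟩ := ext_of hs X.hΔ (S := (B : Set D) ∪ Set.range x)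
    ((Finset.finite_toSet B).union (Set.finite_range x))
    (f := fun a => if a ∈ B then a else g₀ a) (by
    rintro a (ha | ⟨i, rfl⟩) b (hb | ⟨k, rfl⟩) hab
    · rw [i1 a ha, i1 b hb]
      exact ⟨hab, rfl, Iff.rfl⟩
    · rw [i1 a ha, i2 k]
      exact ⟨fun e => hyB k (e ▸ ha), by rw [(hy a ha _ ⟨k, rfl⟩).2, (hx a ha _ ⟨k, rfl⟩).2],
        (hlt a ha k).1⟩
    · rw [i1 b hb, i2 i]
      refine ⟨fun e => hyB i (e ▸ hb), ?_, (hlt b hb i).2⟩
      rw [hs.col_symm, (hy b hb _ ⟨i, rfl⟩).2, hs.col_symm, (hx b hb _ ⟨i, rfl⟩).2]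
    · rw [i2 i, i2 k, ← h0, ← h0]
      exact ⟨fun e => hab (g₀.injective e), col_aut hg₀' _ _, lt_aut hg₀' _ _⟩) X.irr
  refine ⟨g, mem_st.2 ⟨hg, fun b hb => ?_⟩, fun i => ?_⟩
  · rw [hgf b (Or.inl hb)]
    exact i1 b hb
  · rw [hgf _ (Or.inr ⟨i, rfl⟩)]
    exact i2 i

theorem Cx.exists_sd [Countable D] [Finite ι] (X : Cx Δ lev) {r : D → D → Prop}
    (hr : r = Δ.lt ∨ r = fun a b => Δ.lt b a) (j : ι → Prop) (B : Finset D)
    (hsat : ∀ A : Finset D, ∃ g ∈ autG Δ, Sd Δ r j B (g '' (A : Set D))) :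
    ∃ e : D → D, Emb (autG Δ) e ∧ (∀ A : Finset D, Sd Δ r j B (e '' (A : Set D))) ∧
      CanU (autG Δ) ∅ B e := by
  have hinv : ∀ g ∈ autG Δ, ∀ a b, r (g a) (g b) ↔ r a b := by
    rcases hr with rfl | rfl
    · exact fun g hg a b => hg.2.1 a b
    · exact fun g hg a b => hg.2.1 b a
  obtain ⟨e, he1, he2⟩ := exists_pos (olig_autG X.hlin X.hΔ) B (Sd Δ r j B)
    (fun Y Y' hY h b hb y hy => h b hb y (hY hy))
    (by
      rintro g hg Y h b hb _ ⟨y, hy, rfl⟩
      obtain ⟨h1, h2⟩ := h b hb y hy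
      rw [mem_st] at hg
      have e := hg.2 b hb
      refine ⟨?_, ?_⟩
      · rw [← e]
        exact (hinv g hg.1 _ _).2 h1
      · rw [← e, col_aut hg.1, h2]) hsat
  refine ⟨e, he1, he2, fun m x y hxy => ?_⟩
  have hrange : ∀ x : Fin m → D, Sd Δ r j B (Set.range fun l => e (x l)) := by
    rintro x b hb _ ⟨l, rfl⟩
    exact he2 (Finset.univ.image x) b hb _ ⟨x l, by simp, rfl⟩
  exact X.sd_orb hr (((he1.orb x).symm.trans hxy).trans (he1.orb y)) (hrange x) (hrange y)

theorem Cx.exists_glue [Countable D] [Infinite D] [Finite ι] (X : Cx Δ lev)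
    (hR : RamseyProperty Δ) : Nonempty (Glue (autG Δ)) := by
  have hs := X.hs
  obtain ⟨o⟩ := (inferInstance : Nonempty D)
  -- the top level
  obtain ⟨top, htop, a₀, ha₀, hla₀⟩ : ∃ top, (∀ a, Rl Δ a → lev a ≤ top) ∧
      ∃ a, Rl Δ a ∧ lev a = top := by
    have hne : {a | Rl Δ a}.Nonempty := by
      obtain ⟨x, y, hxy⟩ := exists_pair_ne D
      exact ⟨_, x, y, hxy, rfl⟩
    obtain ⟨a, ha, hmax⟩ := Set.exists_max_image {a | Rl Δ a} lev (Set.toFinite _) hne
    exact ⟨lev a, hmax, a, ha, rfl⟩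
  obtain ⟨g, hg⟩ := X.exists_near 0 ⟨a₀, ha₀, Nat.zero_le _⟩
  obtain ⟨c⟩ := X.exists_chn hR htop (top - lev g) (lev g) le_rfl _ _ (X.first hg) le_rfl
  have hj : c.r c.N none = c.j := by
    have := c.cst o o
    rwa [cc_self] at this
  have hstN := c.st c.N le_rfl
  have hjtop : top ≤ c.lv c.N := by
    obtain ⟨x, z, hxz, hc⟩ := ha₀
    have h1 := X.lev_eq hstN x z
    have h2 := hstN.lz
    rw [c.cst, dd_ne hxz, hc, hla₀] at h1
    rw [hj] at h2
    omega
  have hlevj : lev c.j = c.lv c.N := by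
    rw [← hj]
    exact hstN.lz
  -- positions above finite sets
  have hbelowtop : ∀ b s, dd Δ lev b s < c.lv c.N + 2 := by
    intro b s
    by_cases e : b = s
    · rw [e, dd_self]
      omega
    · rw [dd_ne e]
      have := htop _ ⟨b, s, e, rfl⟩
      omega
  have hposN : ∀ B Y : Finset D, Zn Δ lev (fun u => some (c.r c.N u)) (c.lv c.N + 2) B Y →
      Sd Δ Δ.lt c.j B Y := by
    rintro B Y ⟨e, he, h⟩ b hb y hy
    obtain ⟨h1, h2⟩ := h b hb y hy
    refine ⟨h2.2 (Or.inl (hbelowtop _ _)), ?_⟩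
    have h3 : cc Δ b y = some c.j := by
      rw [h1]
      exact congrArg some (c.cst _ _)
    have hby : b ≠ y := by
      rintro rfl
      rw [cc_self] at h3
      exact absurd h3 (by simp)
    rw [cc_ne hby] at h3
    injection h3
  have habove : ∀ B A : Finset D, ∃ σ ∈ autG Δ, Sd Δ Δ.lt c.j B (σ '' (A : Set D)) := by
    intro B A
    obtain ⟨σ, hσ, -, hZ⟩ := X.zstep htop hstN
      (π := fun u => some (c.r c.N u)) (k := c.lv c.N + 2)
      ⟨le_rfl, fun b y s h => X.dst_st hstN b y s h, fun x y z _ _ h => absurd h (by simp),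
        fun x y z a hxy _ h => by
          injection h with h
          rw [← h, X.cc_symm z x, X.cc_symm z y]
          exact hstN.hm x y z hxy⟩
      ∅ Set.univ (fun p hp => absurd hp (Set.notMem_empty p)) A B 1 (autG Δ).one_mem
      ⟨1, (autG Δ).one_mem, fun b _ y hy => by simp at hy⟩
    refine ⟨σ, hσ, ?_⟩
    have h := hposN B _ hZ
    rintro b hb _ ⟨a, ha, rfl⟩
    exact h b hb _ (by simpa using ha)
  choose t ht1 ht2 ht3 using fun B => X.exists_sd (Or.inl rfl) c.j B (habove B)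
  obtain ⟨u, hu1, hu2, hu3⟩ := X.exists_sd (r := fun a b => Δ.lt b a) (Or.inr rfl) c.j {o} (by
    intro A
    obtain ⟨σ, hσ, h⟩ := habove A {o}
    have hσi : ∀ x, σ (σ⁻¹ x) = x := fun x => σ.apply_symm_apply x
    refine ⟨σ⁻¹, (autG Δ).inv_mem hσ, ?_⟩
    rintro b hb _ ⟨a, ha, rfl⟩
    have hb' : b = o := by simpa using hb
    subst hb'
    obtain ⟨h1, h2⟩ := h a ha (σ b) ⟨b, by simp, rfl⟩
    refine ⟨?_, ?_⟩
    · show Δ.lt (σ⁻¹ a) b
      rw [← lt_aut hσ, hσi]
      exact h1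
    · rw [← col_aut hσ, hσi, hs.col_symm, h2])
  -- the zones
  let P : Set D := {x | Δ.lt x o ∧ top ≤ lev (col Δ x o)}
  let Q : Set D := {x | Δ.lt o x ∧ top ≤ lev (col Δ o x)}
  have hPQ : ∀ p ∈ P, ∀ q ∈ Q, Δ.lt p q ∧ top ≤ lev (col Δ p q) := by
    rintro p ⟨h1, h2⟩ q ⟨h3, h4⟩
    have h5 := (X.dd_conv h1 h3).1
    rw [dd_ne (X.ne h1), dd_ne (X.ne (X.tr h1 h3))] at h5
    exact ⟨X.tr h1 h3, by omega⟩
  let Z : ℕ → Finset D → Finset D → Prop := fun j B Y =>
    match j with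
    | 0 => Zn Δ lev id 0 B Y
    | i + 1 => Zn Δ lev (fun u => some (c.r i u)) (c.lv i + 2) B Y
  refine ⟨{
    N := c.N + 1
    c := fun _ => {o}
    P := fun _ => P
    Q := fun _ => Q
    hP := ?_
    hQ := ?_
    uP := fun _ => u
    uP_emb := fun _ => hu1
    uP_can := fun _ => hu3
    uP_mem := ?_
    uQ := fun _ => t {o}
    uQ_emb := fun _ => ht1 _
    uQ_can := fun _ => ht3 _
    uQ_mem := ?_
    Z := Z
    Z_anti := ?_
    Z_zero := ?_
    step := ?_
    t := t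
    t_emb := ht1
    t_can := ht3
    final := ?_ }⟩
  · rintro - g hg x ⟨h1, h2⟩
    rw [mem_st] at hg
    have e := hg.2 o (Finset.mem_singleton_self o)
    have h3 := (lt_aut hg.1 x o).2 h1
    have h4 := col_aut hg.1 x o
    rw [e] at h3 h4
    exact ⟨h3, by rw [h4]; exact h2⟩
  · rintro - g hg x ⟨h1, h2⟩
    rw [mem_st] at hg
    have e := hg.2 o (Finset.mem_singleton_self o)
    have h3 := (lt_aut hg.1 o x).2 h1
    have h4 := col_aut hg.1 o x
    rw [e] at h3 h4
    exact ⟨h3, by rw [h4]; exact h2⟩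
  · rintro - x
    obtain ⟨h1, h2⟩ := hu2 {x} o (by simp) (u x) (by simp)
    refine ⟨h1, ?_⟩
    rw [hs.col_symm, h2, hlevj]
    exact hjtop
  · rintro - x
    obtain ⟨h1, h2⟩ := ht2 {o} {x} o (by simp) (t {o} x) (by simp)
    refine ⟨h1, ?_⟩
    rw [h2, hlevj]
    exact hjtop
  · intro j B Y Y' hY h
    cases j with
    | zero =>
      obtain ⟨e, he, h⟩ := h
      exact ⟨e, he, fun b hb y hy => h b hb y (hY hy)⟩
    | succ i =>
      obtain ⟨e, he, h⟩ := h
      exact ⟨e, he, fun b hb y hy => h b hb y (hY hy)⟩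
  · intro B Y _
    exact ⟨1, (autG Δ).one_mem, fun b _ y _ => ⟨rfl, by simp⟩⟩
  · intro j hj A B τ hτ hZ
    cases j with
    | zero =>
      have h0 := c.st 0 (Nat.zero_le _)
      have hr0 := c.r0
      exact X.zstep htop h0 (π := id) (k := 0)
        ⟨Nat.zero_le _, fun b y s h => by
            rw [dd_of_cc (lev := lev) h]
            omega,
          fun x y z hxy _ h => by
            have hzx : z = x := by
              by_contra hne
              have h' : cc Δ z x = none := h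
              rw [cc_ne hne] at h'
              exact absurd h' (by simp)
            rw [hr0, hzx, cc_ne hxy]
            rfl,
          fun x y z a hxy _ h => by
            have h' : cc Δ z x = some a := h
            have hzx : z ≠ x := by
              rintro rfl
              rw [cc_self] at h'
              exact absurd h' (by simp)
            rw [cc_ne hzx] at h'
            injection h' with h'
            rw [hr0, ← h']
            by_cases hzy : z = y
            · subst hzy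
              rw [cc_self, hs.col_symm z x]
              exact (hg.twin _ ⟨x, z, hxy, rfl⟩ (Nat.zero_le _)).rot hs
            · rw [cc_ne hzy]
              exact X.tr_mk hxy (Ne.symm hzx) (Ne.symm hzy)⟩
        P Q hPQ A B τ hτ hZ
    | succ i =>
      have hi := c.st i (by omega)
      have hi' := c.st (i + 1) (by omega)
      obtain ⟨h1, h2⟩ := c.gl i (by omega)
      exact X.zstep htop hi' (π := fun u => some (c.r i u)) (k := c.lv i + 2)
        ⟨by omega, fun b y s h => X.dst_st hi b y s h, fun x y z _ _ h => absurd h (by simp),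
          fun x y z a hxy hl h => by
            injection h with h
            rw [← h, X.cc_symm z x, X.cc_symm z y]
            exact h1 x y z hxy hl⟩
        P Q hPQ A B τ hτ hZ
  · intro B m x σ hσ hZ
    have hZ' := hposN B _ hZ
    apply X.sd_orb (Or.inl rfl) (j := c.j)
    · exact ((ht1 B).orb x).symm.trans (Orb.of_mem (by rwa [st_empty]) x)
    · rintro b hb _ ⟨l, rfl⟩
      exact ht2 B (Finset.univ.image x) b hb _ ⟨x l, by simp, rfl⟩
    · rintro b hb _ ⟨l, rfl⟩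
      exact hZ' b hb _ (by simp)

/-- The theorem. -/
theorem triangle_main [Countable D] [Infinite D] [Finite ι] {Δ : BStr ι D}
    (hlin : IsStrictTotalOrder D Δ.lt) (hΔ : Homogeneous Δ) (hR : RamseyProperty Δ)
    (hT : ∃ lev, TriangleClass Δ lev) {Γ : (n : ℕ) → Set (Set (Fin n → D))}
    (hΓ : IsReduct Δ Γ) (hno : ¬ HasHomToProjections (Pol Γ)) :
    ∃ (n : ℕ) (c : Fin n → D), ∀ m, ¬ HasHomToProjections (TypeClone Δ c (Pol Γ) m) := by
  obtain ⟨lev, hT⟩ := hT
  obtain ⟨gl⟩ := Cx.exists_glue (Cx.mk hT hlin hΔ) hR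
  exact of_glue hlin hΔ hR gl hΓ hno

end Pool.Agent.MP_f99268_lc
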