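import Pool.Agent.Lib.MP_f99268_lc_T.Near

/-!
# Far extensions, and extensions of infinite legal functions
-/

namespace Pool.Agent.MP_f99268_lc

open Equiv Classical

variable {ι D : Type} {Δ : BStr ι D} {lev : (ι → Prop) → ℕ}

namespace Cx

variable (X : Cx Δ lev)

include X

theorem leg_twin {l : ℕ} {g : ι → Prop} (hg : Near Δ lev l g) {z : D} {S : Set D}
    (hS : ∀ x ∈ S, x ≠ z → l ≤ lev (col Δ z x)) :
    Leg Δ S (fun x => if x = z then g else col Δ z x) := by
  refine ⟨fun x _ => ?_, fun x hx y hy hxy => ?_⟩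
  · show Rl Δ (if x = z then g else col Δ z x)
    by_cases e : x = z
    · rw [if_pos e]
      exact hg.rl
    · rw [if_neg e]
      exact ⟨z, x, Ne.symm e, rfl⟩
  · by_cases e : x = z
    · subst e
      have h := hS y hy hxy.symm
      show Tr Δ (col Δ x y) (if x = x then g else col Δ x x) (if y = x then g else col Δ x y)
      rw [if_pos rfl, if_neg hxy.symm]
      exact (hg.twin _ ⟨x, y, hxy, rfl⟩ h).swap12 X.hs
    · by_cases e' : y = z
      · subst e'
        have h := hS x hx e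
        show Tr Δ (col Δ x y) (if x = y then g else col Δ y x) (if y = y then g else col Δ y y)
        rw [if_pos rfl, if_neg e, X.hs.col_symm x y]
        exact (hg.twin _ ⟨y, x, hxy.symm, rfl⟩ h).rot X.hs
      · show Tr Δ (col Δ x y) (if x = z then g else col Δ z x) (if y = z then g else col Δ z y)
        rw [if_neg e, if_neg e']
        exact X.tr_mk hxy e e'

/-- Extension at level at least `l` from a finite set. -/
theorem far_ext [Finite ι] [Infinite D] {l : ℕ} {g : ι → Prop} (hg : Near Δ lev l g)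
    (S Y : Finset D) {p : D → ι → Prop} (hp : Leg Δ (S : Set D) p)
    (hl : ∀ x ∈ S, l ≤ lev (p x)) :
    ∃ d, d ∉ S ∧ d ∉ Y ∧ (∀ x ∈ S, col Δ d x = p x) ∧ ∀ y ∈ Y, l ≤ lev (col Δ d y) := by
  obtain ⟨z, hzS, hzY, hz⟩ := X.ext_avoid S Y hp
  let S' : Finset D := insert z ((S ∪ Y).filter fun x => l ≤ lev (col Δ z x))
  obtain ⟨d, hd1, hd2, hd⟩ := X.ext_avoid S' (S ∪ Y) (X.leg_twin hg (z := z) (S := (S' : Set D)) (by
    intro x hx hxz
    rcases Finset.mem_insert.1 (Finset.mem_coe.1 hx) with h | h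
    · exact absurd h hxz
    · exact (Finset.mem_filter.1 h).2))
  rw [Finset.mem_union, not_or] at hd2
  have hzd : col Δ d z = g := by
    rw [hd z (Finset.mem_insert_self _ _)]
    exact if_pos rfl
  have hdz : d ≠ z := fun e => hd1 (e ▸ Finset.mem_insert_self _ _)
  have hmem : ∀ x, x ∈ S ∪ Y → x ≠ z → l ≤ lev (col Δ z x) → col Δ d x = col Δ z x := by
    intro x hx hxz hlx
    rw [hd x (Finset.mem_insert_of_mem (Finset.mem_filter.2 ⟨hx, hlx⟩))]
    exact if_neg hxz
  refine ⟨d, hd2.1, hd2.2, fun x hx => ?_, fun y hy => ?_⟩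
  · rw [hmem x (Finset.mem_union_left _ hx) (fun e => hzS (e ▸ hx)) (by
      rw [hz x hx]
      exact hl x hx), hz x hx]
  · by_cases h : l ≤ lev (col Δ z y)
    · rw [hmem y (Finset.mem_union_right _ hy) (fun e => hzY (e ▸ hy)) h]
      exact h
    · have h1 : Tr Δ (col Δ d z) (col Δ d y) (col Δ z y) :=
        Tr.mk hdz (fun e => hd2.2 (e ▸ hy)) (fun e => hzY (e ▸ hy))
      have h2 := (X.lev_le h1).1
      rw [hzd] at h2
      have h3 := hg.le
      omega

theorem inf_ext [Finite ι] [Infinite D] {S : Set D} {p : D → ι → Prop} (hp : Leg Δ S p) :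
    ∃ q : D → ι → Prop, Leg Δ Set.univ q ∧ ∀ x ∈ S, q x = p x := by
  have hex : ∀ F : Finset D, ∃ d, d ∉ F ∧ ∀ x ∈ F, x ∈ S → col Δ d x = p x := by
    intro F
    obtain ⟨d, -, hd, h⟩ := X.ext_avoid (F.filter (· ∈ S)) F (p := p)
      ⟨fun x hx => hp.1 x (Finset.mem_filter.1 (Finset.mem_coe.1 hx)).2,
        fun x hx y hy hxy => hp.2 x (Finset.mem_filter.1 (Finset.mem_coe.1 hx)).2 y
          (Finset.mem_filter.1 (Finset.mem_coe.1 hy)).2 hxy⟩
    exact ⟨d, hd, fun x hx hxS => h x (Finset.mem_filter.2 ⟨hx, hxS⟩)⟩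
  choose d hd h using hex
  obtain ⟨n, ⟨e⟩⟩ := Finite.exists_equiv_fin (ι → Prop)
  have hlim : ∀ y : D, ∃ v : ι → Prop, ∀ᶠ F in (uf D : Filter (Finset D)), col Δ (d F) y = v := by
    intro y
    obtain ⟨v, hv⟩ := uf_exists_val (fun F => e (col Δ (d F) y))
    refine ⟨e.symm v, hv.mono fun F hF => ?_⟩
    rw [← hF]
    simp
  choose q hq using hlim
  have hmem : ∀ y : D, ∀ᶠ F in (uf D : Filter (Finset D)), y ∈ F := fun y =>
    (uf_superset {y}).mono fun F hF => hF (Finset.mem_singleton_self y)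
  refine ⟨q, ⟨fun x _ => ?_, fun x _ y _ hxy => ?_⟩, fun x hx => ?_⟩
  · obtain ⟨F, h1, h2⟩ := ((hq x).and (hmem x)).exists
    exact ⟨d F, x, fun e => hd F (e ▸ h2), h1⟩
  · obtain ⟨F, ⟨h1, h2⟩, h3, h4⟩ := (((hq x).and (hmem x)).and ((hq y).and (hmem y))).exists
    rw [← h1, ← h3]
    exact X.tr_mk hxy (fun e => hd F (e ▸ h2)) (fun e => hd F (e ▸ h4))
  · obtain ⟨F, h1, h2⟩ := ((hq x).and (hmem x)).exists
    rw [← h1]
    exact h F x h2 hx

end Cx

end Pool.Agent.MP_f99268_lc
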