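import Pool.Agent.Lib.MP_f99268_lc_T.Ext

/-!
# Near colours, and extensions avoiding a finite set
-/

namespace Pool.Agent.MP_f99268_lc

open Equiv Classical

variable {ι D : Type}

/-- The hypotheses. -/
structure Cx (Δ : BStr ι D) (lev : (ι → Prop) → ℕ) : Prop where
  hT : TriangleClass Δ lev
  hlin : IsStrictTotalOrder D Δ.lt
  hΔ : Homogeneous Δ

/-- The distance. -/
noncomputable def dd (Δ : BStr ι D) (lev : (ι → Prop) → ℕ) (x y : D) : ℕ :=
  if x = y then 0 else lev (col Δ x y) + 1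

/-- A legal function on `X`. -/
def Leg (Δ : BStr ι D) (X : Set D) (p : D → ι → Prop) : Prop :=
  (∀ x ∈ X, Rl Δ (p x)) ∧ ∀ x ∈ X, ∀ y ∈ X, x ≠ y → Tr Δ (col Δ x y) (p x) (p y)

section

variable {Δ : BStr ι D} {lev : (ι → Prop) → ℕ}

theorem dd_self (x : D) : dd Δ lev x x = 0 := if_pos rfl

theorem dd_ne {x y : D} (h : x ≠ y) : dd Δ lev x y = lev (col Δ x y) + 1 := if_neg h

theorem dd_aut {g : Perm D} (hg : g ∈ autG Δ) (x y : D) :
    dd Δ lev (g x) (g y) = dd Δ lev x y := by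
  by_cases h : x = y
  · rw [h, dd_self, dd_self]
  · rw [dd_ne h, dd_ne (fun e => h (g.injective e)), col_aut hg]

namespace Cx

variable (X : Cx Δ lev)

include X

theorem hs : SymIrr Δ := X.hT.symIrr

theorem irr (a : D) : ¬ Δ.lt a a := X.hlin.irrefl a

theorem tr {a b c : D} (h : Δ.lt a b) (h' : Δ.lt b c) : Δ.lt a c := X.hlin.trans a b c h h'

theorem ne {a b : D} (h : Δ.lt a b) : a ≠ b := fun e => X.irr b (e ▸ h)

theorem asym {a b : D} (h : Δ.lt a b) : ¬ Δ.lt b a := fun h' => X.irr a (X.tr h h')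

theorem tri (a b : D) : Δ.lt a b ∨ a = b ∨ Δ.lt b a := by
  by_cases h : Δ.lt a b
  · exact Or.inl h
  · by_cases h' : Δ.lt b a
    · exact Or.inr (Or.inr h')
    · exact Or.inr (Or.inl (X.hlin.trichotomous a b h h'))

theorem dd_symm (x y : D) : dd Δ lev x y = dd Δ lev y x := by
  by_cases h : x = y
  · rw [h]
  · rw [dd_ne h, dd_ne (Ne.symm h), X.hs.col_symm]

theorem dd_ultra (x y z : D) : dd Δ lev x z ≤ max (dd Δ lev x y) (dd Δ lev y z) := by
  by_cases h1 : x = y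
  · subst h1
    exact le_max_right _ _
  by_cases h2 : y = z
  · subst h2
    exact le_max_left _ _
  by_cases h3 : x = z
  · subst h3
    rw [dd_self]
    exact Nat.zero_le _
  rw [dd_ne h1, dd_ne h2, dd_ne h3]
  have := X.hT.ultra x y z h1 h2 h3
  omega

theorem dd_conv {x y z : D} (h : Δ.lt x y) (h' : Δ.lt y z) :
    dd Δ lev x y ≤ dd Δ lev x z ∧ dd Δ lev y z ≤ dd Δ lev x z := by
  have h1 : dd Δ lev x y ≤ dd Δ lev x z := by
    rw [dd_ne (X.ne h), dd_ne (X.ne (X.tr h h'))]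
    have := X.hT.convex x y z h h'
    omega
  refine ⟨h1, ?_⟩
  have h2 := X.dd_ultra y x z
  rw [X.dd_symm y x] at h2
  omega

theorem tr_mk {x y z : D} (h1 : x ≠ y) (h2 : x ≠ z) (h3 : y ≠ z) :
    Tr Δ (col Δ x y) (col Δ z x) (col Δ z y) := by
  rw [X.hs.col_symm z x, X.hs.col_symm z y]
  exact Tr.mk h1 h2 h3

theorem leg_col {S : Set D} {d : D} (h : d ∉ S) : Leg Δ S (fun x => col Δ d x) := by
  refine ⟨fun x hx => ⟨d, x, fun e => h (e ▸ hx), rfl⟩, fun x hx y hy hxy => ?_⟩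
  exact X.tr_mk hxy (fun e => h (e ▸ hx)) (fun e => h (e ▸ hy))

theorem lev_le {a b c : ι → Prop} (h : Tr Δ a b c) :
    lev a ≤ max (lev b) (lev c) ∧ lev b ≤ max (lev a) (lev c) ∧ lev c ≤ max (lev a) (lev b) :=
  ⟨h.lev_le X.hT, (h.swap12 X.hs).lev_le X.hT, (h.rot' X.hs).lev_le X.hT⟩

/-- The colour `a` is seen from every point. -/
theorem exists_col (t : D) {a : ι → Prop} (ha : Rl Δ a) : ∃ s, s ≠ t ∧ col Δ t s = a := by
  obtain ⟨x, y, hxy, rfl⟩ := ha
  obtain ⟨g, hg, h⟩ := ext_of X.hs X.hΔ (S := {x}) (Set.finite_singleton x) (f := fun _ => t) (by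
    intro a ha b hb hab
    rw [Set.mem_singleton_iff] at ha hb
    exact absurd (ha.trans hb.symm) hab) X.irr
  have hx : g x = t := h x rfl
  refine ⟨g y, ?_, ?_⟩
  · rw [← hx]
    exact fun e => hxy (g.injective e).symm
  · rw [← hx, col_aut hg]

/-- The colour `a` is seen from every point, above it. -/
theorem exists_col_above (t : D) {a : ι → Prop} (ha : Rl Δ a) :
    ∃ s, Δ.lt t s ∧ col Δ t s = a := by
  obtain ⟨x, y, hxy, rfl⟩ := ha
  obtain ⟨x, y, hlt, hc⟩ : ∃ x' y', Δ.lt x' y' ∧ col Δ x' y' = col Δ x y := by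
    rcases X.tri x y with h | h | h
    · exact ⟨x, y, h, rfl⟩
    · exact absurd h hxy
    · exact ⟨y, x, h, X.hs.col_symm _ _⟩
  obtain ⟨g, hg, h⟩ := ext_of X.hs X.hΔ (S := {x}) (Set.finite_singleton x) (f := fun _ => t) (by
    intro a ha b hb hab
    rw [Set.mem_singleton_iff] at ha hb
    exact absurd (ha.trans hb.symm) hab) X.irr
  have hx : g x = t := h x rfl
  refine ⟨g y, ?_, ?_⟩
  · rw [← hx, lt_aut hg]
    exact hlt
  · rw [← hx, col_aut hg, hc]

/-- Extension with the new point on top of the block of the nearest point. -/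
theorem ext_top (S : Finset D) {p : D → ι → Prop} (hp : Leg Δ (S : Set D) p) {x0 : D}
    (hx0 : x0 ∈ S) (hmin : ∀ x ∈ S, lev (p x0) ≤ lev (p x)) :
    ∃ d, d ∉ S ∧ (∀ x ∈ S, col Δ d x = p x) ∧ Δ.lt x0 d := by
  have hP : ∀ x ∈ S, dd Δ lev x0 x ≤ max (lev (p x) + 1) (lev (p x0) + 1) ∧
      lev (p x) + 1 ≤ max (dd Δ lev x0 x) (lev (p x0) + 1) := by
    intro x hx
    by_cases e : x0 = x
    · subst e
      rw [dd_self]
      omega
    · have h := X.lev_le (hp.2 x0 hx0 x hx e)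
      rw [dd_ne e]
      omega
  have : Nonempty D := ⟨x0⟩
  obtain ⟨d, hd, h⟩ := X.hT.ext X.hlin X.hΔ S p
    (fun x => dd Δ lev x0 x ≤ lev (p x0) + 1 ∨ Δ.lt x x0) hp.1 hp.2
    (by
      intro x hx y hy hxy hLy
      rcases hLy with h | h
      · rcases X.tri x x0 with h' | h' | h'
        · exact Or.inr h'
        · left
          rw [h', dd_self]
          omega
        · left
          have := (X.dd_conv h' hxy).1
          omega
      · exact Or.inr (X.tr hxy h))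
    (by
      intro x hx y hy hxy hLy
      have h1 := (hP x hx).1
      have h2 := hmin x hx
      have h3 : dd Δ lev x y = lev (col Δ x y) + 1 := dd_ne (X.ne hxy)
      rcases hLy with h | h
      · have h4 := X.dd_ultra x x0 y
        rw [X.dd_symm x x0] at h4
        omega
      · have h4 := (X.dd_conv hxy h).1
        rw [X.dd_symm x x0] at h4
        omega)
    (by
      intro x hx y hy hLx hLy
      rw [not_or] at hLy
      have h1 := (hP x hx).2
      have hxy : x ≠ y := by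
        rintro rfl
        rcases hLx with h | h
        · exact hLy.1 h
        · exact hLy.2 h
      have h3 : dd Δ lev x y = lev (col Δ x y) + 1 := dd_ne hxy
      rcases hLx with h | h
      · have h4 := X.dd_ultra x0 x y
        omega
      · rcases X.tri x0 y with h5 | h5 | h5
        · have h6 := X.dd_conv h h5
          rw [X.dd_symm x x0] at h6
          omega
        · rw [← h5, dd_self] at hLy
          omega
        · exact absurd h5 hLy.2)
    (by
      intro x hx y hy hLx hxy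
      rw [not_or] at hLx
      have h1 := (hP x hx).2
      have h2 := (hP y hy).1
      rcases X.tri x0 x with h5 | h5 | h5
      · have h6 := (X.dd_conv h5 hxy).1
        omega
      · rw [h5, dd_self] at hLx
        omega
      · exact absurd h5 hLx.2)
  refine ⟨d, hd, fun x hx => (h x hx).1, (h x0 hx0).2.2 (Or.inl ?_)⟩
  rw [dd_self]
  omega

/-- Extension. -/
theorem ext_plain [Nonempty D] (S : Finset D) {p : D → ι → Prop} (hp : Leg Δ (S : Set D) p) :
    ∃ d, d ∉ S ∧ ∀ x ∈ S, col Δ d x = p x := by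
  rcases S.eq_empty_or_nonempty with rfl | hne
  · exact ⟨Classical.arbitrary D, Finset.notMem_empty _, fun x hx =>
      absurd hx (Finset.notMem_empty x)⟩
  · obtain ⟨x0, hx0, hmin⟩ := S.exists_min_image (fun x => lev (p x)) hne
    obtain ⟨d, hd, h, -⟩ := X.ext_top S hp hx0 hmin
    exact ⟨d, hd, h⟩

end Cx

/-- Near colours for the level `l`. -/
structure Near (Δ : BStr ι D) (lev : (ι → Prop) → ℕ) (l : ℕ) (g : ι → Prop) : Prop where
  rl : Rl Δ g
  twin : ∀ a, Rl Δ a → l ≤ lev a → Tr Δ g a a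
  le : l ≤ lev g

namespace Cx

variable (X : Cx Δ lev)

include X

theorem exists_near [Finite ι] (l : ℕ) (hl : ∃ a, Rl Δ a ∧ l ≤ lev a) : ∃ g, Near Δ lev l g := by
  -- a colour of minimal level
  obtain ⟨a0, ⟨ha0, hla0⟩, hmin⟩ : ∃ a0, (Rl Δ a0 ∧ l ≤ lev a0) ∧
      ∀ a, Rl Δ a → l ≤ lev a → lev a0 ≤ lev a := by
    have hex : ∃ n, ∃ a, (Rl Δ a ∧ l ≤ lev a) ∧ lev a = n := by
      obtain ⟨a, ha⟩ := hl
      exact ⟨_, a, ha, rfl⟩
    obtain ⟨a, ha, he⟩ := Nat.find_spec hex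
    refine ⟨a, ha, fun b hb hlb => ?_⟩
    rw [he]
    exact Nat.find_min' hex ⟨b, ⟨hb, hlb⟩, rfl⟩
  have ha0' := ha0
  obtain ⟨t, -⟩ := ha0'
  obtain ⟨y, hty, hcy⟩ := X.exists_col_above t ha0
  have hch : ∀ a : ι → Prop, ∃ s, (Rl Δ a → l ≤ lev a → s ≠ t ∧ col Δ t s = a) := by
    intro a
    by_cases ha : Rl Δ a
    · obtain ⟨s, hs⟩ := X.exists_col t ha
      exact ⟨s, fun _ _ => hs⟩
    · exact ⟨t, fun h => absurd h ha⟩
  choose s hs using hch
  have : Fintype (ι → Prop) := Fintype.ofFinite _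
  let S : Finset D := insert y ((Finset.univ.filter fun a => Rl Δ a ∧ l ≤ lev a).image s)
  have hSt : ∀ x ∈ S, x ≠ t ∧ l ≤ lev (col Δ t x) := by
    intro x hx
    rcases Finset.mem_insert.1 hx with rfl | hx
    · exact ⟨(X.ne hty).symm, by rw [hcy]; exact hla0⟩
    · obtain ⟨a, ha, rfl⟩ := Finset.mem_image.1 hx
      have ha' := (Finset.mem_filter.1 ha).2
      have := hs a ha'.1 ha'.2
      exact ⟨this.1, by rw [this.2]; exact ha'.2⟩
  have htS : t ∉ (S : Set D) := fun h => (hSt t (Finset.mem_coe.1 h)).1 rfl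
  obtain ⟨d, hd, hdc, hyd⟩ := X.ext_top S (X.leg_col htS) (x0 := y) (Finset.mem_insert_self _ _)
    (by
      intro x hx
      rw [hcy]
      exact hmin _ ⟨t, x, (hSt x hx).1.symm, rfl⟩ (hSt x hx).2)
  have htd : t ≠ d := X.ne (X.tr hty hyd)
  refine ⟨col Δ t d, ⟨t, d, htd, rfl⟩, ?_, ?_⟩
  · intro a ha hla
    obtain ⟨h1, h2⟩ := hs a ha hla
    have hmem : s a ∈ S := Finset.mem_insert_of_mem (Finset.mem_image_of_mem _
      (Finset.mem_filter.2 ⟨Finset.mem_univ _, ha, hla⟩))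
    have h3 := hdc _ hmem
    have h4 : Tr Δ (col Δ t d) (col Δ t (s a)) (col Δ d (s a)) :=
      Tr.mk htd h1.symm (fun e => hd (e ▸ hmem))
    rwa [h3, h2] at h4
  · have h5 := (X.dd_conv hty hyd).1
    rw [dd_ne (X.ne hty), dd_ne htd, hcy] at h5
    omega

theorem near_min {l : ℕ} {g : ι → Prop} (hg : Near Δ lev l g) {a : ι → Prop} (ha : Rl Δ a)
    (hla : l ≤ lev a) : lev g ≤ lev a := by
  have := (X.lev_le (hg.twin a ha hla)).1
  omega

/-- Extension avoiding a finite set. -/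
theorem ext_avoid [Finite ι] [Infinite D] (S Y : Finset D) {p : D → ι → Prop}
    (hp : Leg Δ (S : Set D) p) : ∃ d, d ∉ S ∧ d ∉ Y ∧ ∀ x ∈ S, col Δ d x = p x := by
  obtain ⟨d₁, hd₁, h₁⟩ := X.ext_plain S hp
  obtain ⟨a, ha⟩ : ∃ a, Rl Δ a := by
    obtain ⟨x, y, hxy⟩ := exists_pair_ne D
    exact ⟨_, x, y, hxy, rfl⟩
  obtain ⟨g, hg⟩ := X.exists_near 0 ⟨a, ha, Nat.zero_le _⟩
  let q : D → ι → Prop := fun x => if x = d₁ then g else col Δ d₁ x
  have hq1 : q d₁ = g := if_pos rfl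
  have hq2 : ∀ x, x ≠ d₁ → q x = col Δ d₁ x := fun x hx => if_neg hx
  obtain ⟨d, hd, h⟩ := X.ext_plain (S ∪ Y) (p := q) (by
    refine ⟨fun x _ => ?_, fun x _ y _ hxy => ?_⟩
    · by_cases e : x = d₁
      · rw [e, hq1]
        exact hg.rl
      · rw [hq2 x e]
        exact ⟨d₁, x, Ne.symm e, rfl⟩
    · by_cases e : x = d₁
      · subst e
        rw [hq1, hq2 y hxy.symm]
        exact (hg.twin _ ⟨x, y, hxy, rfl⟩ (Nat.zero_le _)).swap12 X.hs
      · by_cases e' : y = d₁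
        · subst e'
          rw [hq1, hq2 x e, X.hs.col_symm y x]
          exact (hg.twin _ ⟨x, y, hxy, rfl⟩ (Nat.zero_le _)).rot X.hs
        · rw [hq2 x e, hq2 y e']
          exact X.tr_mk hxy e e')
  rw [Finset.mem_union, not_or] at hd
  refine ⟨d, hd.1, hd.2, fun x hx => ?_⟩
  rw [h x (Finset.mem_union_left _ hx), hq2 x (fun e => hd₁ (e ▸ hx)), h₁ x hx]

end Cx

end

end Pool.Agent.MP_f99268_lc
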