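import Pool.Agent.Lib.MP_f99268_lc_T.Near

/-!
# Orders and distances of a position
-/

namespace Pool.Agent.MP_f99268_lc

open Equiv Classical

variable {ι D : Type} {Δ : BStr ι D} {lev : (ι → Prop) → ℕ}

namespace Cx

variable (X : Cx Δ lev)

include X

/-- Two points of the base. -/
theorem ordBB {b c s : D} {k : ℕ} (hbc : Δ.lt b c) :
    ((dd Δ lev c s < k ∨ Δ.lt c s) → (dd Δ lev b s < k ∨ Δ.lt b s)) ∧
    ((dd Δ lev c s < k ∨ Δ.lt c s) → dd Δ lev b c ≤ max (dd Δ lev b s) (k - 1)) ∧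
    (¬ (dd Δ lev b s < k ∨ Δ.lt b s) →
      max (dd Δ lev b s) (k - 1) ≤ max (dd Δ lev c s) (k - 1)) ∧
    ((dd Δ lev b s < k ∨ Δ.lt b s) → ¬ (dd Δ lev c s < k ∨ Δ.lt c s) →
      max (dd Δ lev b s) (k - 1) ≤ dd Δ lev b c) := by
  have hu1 := X.dd_ultra b s c
  have hu2 := X.dd_ultra c b s
  rw [X.dd_symm s c] at hu1
  rw [X.dd_symm c b] at hu2
  refine ⟨?_, ?_, ?_, ?_⟩
  · rintro (h | h)
    · rcases X.tri b s with h' | h' | h'
      · exact Or.inr h'
      · left
        rw [h', dd_self]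
        omega
      · left
        have := (X.dd_conv h' hbc).1
        rw [X.dd_symm s b, X.dd_symm s c] at this
        omega
    · exact Or.inr (X.tr hbc h)
  · rintro (h | h)
    · omega
    · have := (X.dd_conv hbc h).1
      omega
  · intro h
    rw [not_or] at h
    rcases X.tri b s with h' | h' | h'
    · exact absurd h' h.2
    · rw [h', dd_self]
      omega
    · have := (X.dd_conv h' hbc).1
      rw [X.dd_symm s b, X.dd_symm s c] at this
      omega
  · intro h1 h2
    rw [not_or] at h2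
    rcases h1 with h1 | h1
    · omega
    · rcases X.tri c s with h' | h' | h'
      · exact absurd h' h2.2
      · have h3 := h2.1
        rw [h', dd_self] at h3
        rw [h']
        omega
      · have := X.dd_conv h1 h'
        rw [X.dd_symm s c] at this
        omega

/-- A point of the base and a point of the copy. -/
theorem ordBS {b y t s : D} {k k' : ℕ} (hk : k ≤ k') (hk' : 1 ≤ k') (hby : b ≠ y) (hts : t ≠ s)
    (h1 : dd Δ lev b y = max (dd Δ lev b t) (k - 1))
    (h2 : Δ.lt b y ↔ (dd Δ lev b t < k ∨ Δ.lt b t))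
    (h3 : k = k' ∨ (Δ.lt t s ∧ ∀ x z, dd Δ lev x z ≤ dd Δ lev t s)) :
    (Δ.lt b y → Δ.lt t s → (dd Δ lev b s < k' ∨ Δ.lt b s)) ∧
    (Δ.lt y b → (dd Δ lev b s < k' ∨ Δ.lt b s) → Δ.lt t s) ∧
    (Δ.lt b y → Δ.lt t s → dd Δ lev b y ≤ max (dd Δ lev b s) (k' - 1)) ∧
    (Δ.lt y b → (dd Δ lev b s < k' ∨ Δ.lt b s) → dd Δ lev b y ≤ dd Δ lev t s) ∧
    ((dd Δ lev b s < k' ∨ Δ.lt b s) → ¬ Δ.lt t s →
      max (dd Δ lev b s) (k' - 1) ≤ dd Δ lev b y) ∧
    (Δ.lt t s → ¬ (dd Δ lev b s < k' ∨ Δ.lt b s) → dd Δ lev t s ≤ dd Δ lev b y) ∧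
    (¬ (dd Δ lev b s < k' ∨ Δ.lt b s) → Δ.lt b y →
      max (dd Δ lev b s) (k' - 1) ≤ dd Δ lev t s) ∧
    (¬ Δ.lt t s → Δ.lt y b → dd Δ lev t s ≤ max (dd Δ lev b s) (k' - 1)) := by
  have hu1 := X.dd_ultra b t s
  have hu2 := X.dd_ultra b s t
  have hu3 := X.dd_ultra t b s
  rw [X.dd_symm s t] at hu2
  rw [X.dd_symm t b] at hu3
  -- the position of `t` and `b` if `y < b`
  have hyb : Δ.lt y b → Δ.lt t b ∧ k ≤ dd Δ lev b t := by
    intro h
    have h4 : ¬ (dd Δ lev b t < k ∨ Δ.lt b t) := fun h' => X.asym h (h2.2 h')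
    rw [not_or] at h4
    refine ⟨?_, by omega⟩
    rcases X.tri b t with h' | h' | h'
    · exact absurd h' h4.2
    · exfalso
      have h5 : 0 < dd Δ lev b y := by
        rw [dd_ne hby]
        omega
      have h6 : dd Δ lev b t = 0 := by rw [h', dd_self]
      omega
    · exact h'
  have hst : ¬ Δ.lt t s → Δ.lt s t ∧ k = k' := by
    intro h
    refine ⟨?_, h3.resolve_right fun h' => h h'.1⟩
    rcases X.tri t s with h' | h' | h'
    · exact absurd h' h
    · exact absurd h' hts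
    · exact h'
  have hsb : ¬ (dd Δ lev b s < k' ∨ Δ.lt b s) → Δ.lt s b ∧ k' ≤ dd Δ lev b s := by
    intro h
    rw [not_or] at h
    refine ⟨?_, by omega⟩
    rcases X.tri b s with h' | h' | h'
    · exact absurd h' h.2
    · rw [h', dd_self] at h
      omega
    · exact h'
  refine ⟨?_, ?_, ?_, ?_, ?_, ?_, ?_, ?_⟩
  · intro hb ht
    rcases h2.1 hb with h | h
    · rcases X.tri b s with h' | h' | h'
      · exact Or.inr h'
      · left
        rw [h', dd_self]
        omega
      · left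
        have := (X.dd_conv ht h').2
        rw [X.dd_symm t b, X.dd_symm s b] at this
        omega
    · exact Or.inr (X.tr h ht)
  · intro hb hL
    obtain ⟨h4, h5⟩ := hyb hb
    by_contra ht
    obtain ⟨h6, h7⟩ := hst ht
    rcases hL with h | h
    · have := (X.dd_conv h6 h4).2
      rw [X.dd_symm t b, X.dd_symm s b] at this
      omega
    · exact X.asym (X.tr h h6) h4
  · intro hb ht
    rcases h2.1 hb with h | h
    · omega
    · have := (X.dd_conv h ht).1
      omega
  · intro hb hL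
    obtain ⟨h4, h5⟩ := hyb hb
    rcases hL with h | h
    · rcases h3 with h6 | h6
      · omega
      · exact h6.2 _ _
    · have := (X.dd_conv h4 h).1
      rw [X.dd_symm t b] at this
      omega
  · intro hL ht
    obtain ⟨h6, h7⟩ := hst ht
    rcases hL with h | h
    · omega
    · have := (X.dd_conv h h6).1
      omega
  · intro ht hL
    obtain ⟨h6, h7⟩ := hsb hL
    have := (X.dd_conv ht h6).1
    rw [X.dd_symm t b] at this
    omega
  · intro hL hb
    obtain ⟨h6, h7⟩ := hsb hL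
    rcases h2.1 hb with h | h
    · omega
    · have := (X.dd_conv h6 h).1
      have h8 := (X.dd_conv h6 h).2
      rw [X.dd_symm s b, X.dd_symm s t] at this
      omega
  · intro ht hb
    obtain ⟨h4, h5⟩ := hyb hb
    obtain ⟨h6, h7⟩ := hst ht
    have := (X.dd_conv h6 h4).1
    rw [X.dd_symm s t, X.dd_symm s b] at this
    omega

end Cx

end Pool.Agent.MP_f99268_lc
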