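import Pool.Agent.Lib.MP_f99268_lc_T.Alg
import Pool.Agent.Lib.MP_f99268_lc_T.Ord

/-!
# One step of the glueing chain
-/

namespace Pool.Agent.MP_f99268_lc

open Equiv Classical

variable {ι D : Type} {Δ : BStr ι D} {lev : (ι → Prop) → ℕ} {l : ℕ}
  {ρ : Option (ι → Prop) → (ι → Prop)}

/-- `y` is in the position `(π, k)` to `b`, with the shadow `s`. -/
def InPos (Δ : BStr ι D) (lev : (ι → Prop) → ℕ) (π : Option (ι → Prop) → Option (ι → Prop))
    (k : ℕ) (b y s : D) : Prop :=
  cc Δ b y = π (cc Δ b s) ∧ (Δ.lt b y ↔ (dd Δ lev b s < k ∨ Δ.lt b s))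

/-- `Y` is in the position `(π, k)` to `B`. -/
def Zn (Δ : BStr ι D) (lev : (ι → Prop) → ℕ) (π : Option (ι → Prop) → Option (ι → Prop))
    (k : ℕ) (B Y : Finset D) : Prop :=
  ∃ e ∈ autG Δ, ∀ b ∈ B, ∀ y ∈ Y, InPos Δ lev π k b y (e y)

/-- The conditions on the old position `(π, k)` which allow to pass to the position `ρ`. -/
structure Old (Δ : BStr ι D) (lev : (ι → Prop) → ℕ) (top l : ℕ)
    (ρ : Option (ι → Prop) → (ι → Prop)) (π : Option (ι → Prop) → Option (ι → Prop))
    (k : ℕ) : Prop where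
  le : k ≤ l + 2
  dst : ∀ b y s, cc Δ b y = π (cc Δ b s) → dd Δ lev b y = max (dd Δ lev b s) (k - 1)
  gl0 : ∀ x y z, x ≠ y → top ≤ lev (col Δ x y) → π (cc Δ z x) = none → ρ (cc Δ z y) = col Δ x y
  gl1 : ∀ x y z a, x ≠ y → top ≤ lev (col Δ x y) → π (cc Δ z x) = some a →
    Tr Δ (col Δ x y) a (ρ (cc Δ z y))

theorem Cx.dst_st (X : Cx Δ lev) (hρ : St Δ lev l ρ) (b y s : D)
    (h : cc Δ b y = some (ρ (cc Δ b s))) :
    dd Δ lev b y = max (dd Δ lev b s) (l + 2 - 1) := by
  have hby : b ≠ y := by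
    rintro rfl
    rw [cc_self] at h
    exact absurd h (by simp)
  rw [cc_ne hby] at h
  injection h with h
  have h1 := X.lev_eq hρ b s
  rw [dd_ne hby, h]
  omega

theorem Cx.zstep (X : Cx Δ lev) [Infinite D] {top : ℕ} (htop : ∀ a, Rl Δ a → lev a ≤ top)
    (hρ : St Δ lev l ρ) {π : Option (ι → Prop) → Option (ι → Prop)} {k : ℕ}
    (hO : Old Δ lev top l ρ π k) (P Q : Set D)
    (hPQ : ∀ p ∈ P, ∀ q ∈ Q, Δ.lt p q ∧ top ≤ lev (col Δ p q)) (A B : Finset D) (τ : Perm D)
    (hτ : τ ∈ autG Δ) (hZ : Zn Δ lev π k B ((A.filter (· ∈ P)).image τ)) :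
    ∃ σ ∈ autG Δ, (∀ a ∈ A, a ∈ P → σ a = τ a) ∧
      Zn Δ lev (fun u => some (ρ u)) (l + 2) B ((A.filter (· ∈ Q)).image σ) := by
  have hs := X.hs
  obtain ⟨e, he, hZe⟩ := hZ
  let h : Perm D := e * τ
  have hh : h ∈ autG Δ := (autG Δ).mul_mem he hτ
  have hold : ∀ a ∈ A, a ∈ P → ∀ b ∈ B, InPos Δ lev π k b (τ a) (h a) := fun a ha haP b hb =>
    hZe b hb (τ a) (Finset.mem_image_of_mem _ (Finset.mem_filter.2 ⟨ha, haP⟩))
  suffices H : ∀ A' : Finset D, A' ⊆ A.filter (· ∈ Q) → ∃ σ ∈ autG Δ,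
      (∀ a ∈ A, a ∈ P → σ a = τ a) ∧
      ∀ a ∈ A', ∀ b ∈ B, InPos Δ lev (fun u => some (ρ u)) (l + 2) b (σ a) (h a) by
    obtain ⟨σ, hσ, h1, h2⟩ := H _ subset_rfl
    refine ⟨σ, hσ, h1, h * σ⁻¹, (autG Δ).mul_mem hh ((autG Δ).inv_mem hσ), ?_⟩
    intro b hb y hy
    obtain ⟨a, ha, rfl⟩ := Finset.mem_image.1 hy
    have e1 : (h * σ⁻¹) (σ a) = h a := congrArg h (σ.symm_apply_apply a)
    rw [e1]
    exact h2 a ha b hb
  intro A'
  induction A' using Finset.induction_on with
  | empty =>
    intro _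
    exact ⟨τ, hτ, fun _ _ _ => rfl, fun a ha => absurd ha (Finset.notMem_empty a)⟩
  | insert a A' haA' ih =>
    intro hsub
    obtain ⟨σ, hσ, hσP, hσA⟩ := ih (fun x hx => hsub (Finset.mem_insert_of_mem hx))
    have haQ : a ∈ A ∧ a ∈ Q := Finset.mem_filter.1 (hsub (Finset.mem_insert_self _ _))
    let S : Finset D := A.filter (· ∈ P) ∪ A'
    have hSP : ∀ u ∈ S, (u ∈ A ∧ u ∈ P) ∨ u ∈ A' := by
      intro u hu
      rcases Finset.mem_union.1 hu with h | h
      · exact Or.inl (Finset.mem_filter.1 h)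
      · exact Or.inr h
    have hSne : ∀ u ∈ S, u ≠ a := by
      intro u hu
      rcases hSP u hu with h | h
      · exact X.ne (hPQ u h.2 a haQ.2).1
      · exact fun e => haA' (e ▸ h)
    let SS : Finset D := S.image σ
    have hSS : ∀ u ∈ S, σ u ∈ SS := fun u hu => Finset.mem_image_of_mem _ hu
    have hσi : ∀ u, σ⁻¹ (σ u) = u := fun u => σ.symm_apply_apply u
    let p : D → ι → Prop := fun x => if x ∈ SS then col Δ (σ⁻¹ x) a else ρ (cc Δ x (h a))
    let L : D → Prop := fun x => if x ∈ SS then Δ.lt (σ⁻¹ x) a else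
      (dd Δ lev x (h a) < l + 2 ∨ Δ.lt x (h a))
    have hpS : ∀ u ∈ S, p (σ u) = col Δ (h u) (h a) := by
      intro u hu
      have e1 : p (σ u) = col Δ (σ⁻¹ (σ u)) a := if_pos (hSS u hu)
      rw [e1, hσi, col_aut hh]
    have hpB : ∀ b, b ∉ SS → p b = ρ (cc Δ b (h a)) := fun b hb => if_neg hb
    have hLS : ∀ u ∈ S, (L (σ u) ↔ Δ.lt (h u) (h a)) := by
      intro u hu
      have e1 : L (σ u) = Δ.lt (σ⁻¹ (σ u)) a := if_pos (hSS u hu)
      rw [e1, hσi, lt_aut hh]
    have hLB : ∀ b, b ∉ SS → (L b ↔ (dd Δ lev b (h a) < l + 2 ∨ Δ.lt b (h a))) := by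
      intro b hb
      have e1 : L b = (dd Δ lev b (h a) < l + 2 ∨ Δ.lt b (h a)) := if_neg hb
      rw [e1]
    -- relation of the base and the copy
    have hrel : ∀ b ∈ B, ∀ u ∈ S, ∃ k', k' ≤ l + 2 ∧
        dd Δ lev b (σ u) = max (dd Δ lev b (h u)) (k' - 1) ∧
        (Δ.lt b (σ u) ↔ (dd Δ lev b (h u) < k' ∨ Δ.lt b (h u))) ∧
        (k' = l + 2 ∨ (Δ.lt (h u) (h a) ∧ ∀ x z, dd Δ lev x z ≤ dd Δ lev (h u) (h a))) := by
      intro b hb u hu
      by_cases hu' : u ∈ A'
      · obtain ⟨h1, h2⟩ := hσA u hu' b hb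
        exact ⟨l + 2, le_rfl, X.dst_st hρ _ _ _ h1, h2, Or.inl rfl⟩
      · obtain ⟨h1, h2⟩ := (hSP u hu).resolve_right hu'
        obtain ⟨h3, h4⟩ := hold u h1 h2 b hb
        rw [← hσP u h1 h2] at h3 h4
        obtain ⟨h5, h6⟩ := hPQ u h2 a haQ.2
        refine ⟨k, hO.le, hO.dst _ _ _ h3, h4, Or.inr ⟨(lt_aut hh _ _).2 h5, ?_⟩⟩
        intro x z
        rw [dd_aut hh, dd_ne (X.ne h5)]
        by_cases e : x = z
        · rw [e, dd_self]
          exact Nat.zero_le _
        · rw [dd_ne e]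
          have := htop _ ⟨x, z, e, rfl⟩
          omega
    have htr : ∀ b ∈ B, ∀ u ∈ S, b ≠ σ u →
        Tr Δ (col Δ b (σ u)) (ρ (cc Δ b (h a))) (col Δ (h u) (h a)) := by
      intro b hb u hu hne
      by_cases hu' : u ∈ A'
      · obtain ⟨h1, -⟩ := hσA u hu' b hb
        rw [cc_ne hne] at h1
        injection h1 with h1
        rw [h1, X.cc_symm b, X.cc_symm b]
        exact (hρ.hm (h u) (h a) b (fun e => hSne u hu (h.injective e))).rot hs
      · obtain ⟨h1, h2⟩ := (hSP u hu).resolve_right hu'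
        obtain ⟨h3, -⟩ := hold u h1 h2 b hb
        rw [← hσP u h1 h2, cc_ne hne] at h3
        obtain ⟨h5, h6⟩ := hPQ u h2 a haQ.2
        have h7 := hO.gl1 (h u) (h a) b _ (fun e => X.ne h5 (h.injective e))
          (by rw [col_aut hh]; exact h6) h3.symm
        exact h7.rot hs
    have hBSS : ∀ b ∈ B, b ∈ SS → ρ (cc Δ b (h a)) = p b ∧
        (L b ↔ (dd Δ lev b (h a) < l + 2 ∨ Δ.lt b (h a))) := by
      intro b hb hbSS
      obtain ⟨u, hu, rfl⟩ := Finset.mem_image.1 hbSS
      have hu' : u ∉ A' := by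
        intro hu'
        obtain ⟨h1, -⟩ := hσA u hu' _ hb
        rw [cc_self] at h1
        exact absurd h1 (by simp)
      obtain ⟨h1, h2⟩ := (hSP u hu).resolve_right hu'
      obtain ⟨h3, h3'⟩ := hold u h1 h2 _ hb
      rw [← hσP u h1 h2] at h3 h3'
      have h8 := hO.dst _ _ _ h3
      rw [cc_self] at h3
      obtain ⟨h5, h6⟩ := hPQ u h2 a haQ.2
      have h7 := hO.gl0 (h u) (h a) (σ u) (fun e => X.ne h5 (h.injective e))
        (by rw [col_aut hh]; exact h6) h3.symm
      rw [hpS u hu, hLS u hu]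
      refine ⟨h7, iff_of_true ((lt_aut hh _ _).2 h5) ?_⟩
      have h9 : σ u = h u := by
        by_contra hne
        rw [dd_self, dd_ne hne] at h8
        omega
      rw [h9]
      exact Or.inr ((lt_aut hh _ _).2 h5)
    -- levels
    have hlevB : ∀ b, b ∉ SS → lev (p b) + 1 = max (dd Δ lev b (h a)) (l + 2 - 1) := by
      intro b hb
      rw [hpB b hb, X.lev_eq hρ]
      omega
    have hlevS : ∀ u ∈ S, lev (p (σ u)) + 1 = dd Δ lev (h u) (h a) := by
      intro u hu
      rw [hpS u hu, dd_ne (fun e => hSne u hu (h.injective e))]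
    have hdd : ∀ u v, dd Δ lev (σ u) (σ v) = dd Δ lev (h u) (h v) := by
      intro u v
      rw [dd_aut hσ, dd_aut hh]
    have hlt : ∀ u v, Δ.lt (σ u) (σ v) ↔ Δ.lt (h u) (h v) := by
      intro u v
      rw [lt_aut hσ, lt_aut hh]
    have hmem : ∀ x ∈ B ∪ SS, (∃ u ∈ S, x = σ u) ∨ (x ∈ B ∧ x ∉ SS) := by
      intro x hx
      by_cases hx' : x ∈ SS
      · obtain ⟨u, hu, e⟩ := Finset.mem_image.1 hx'
        exact Or.inl ⟨u, hu, e.symm⟩
      · exact Or.inr ⟨(Finset.mem_union.1 hx).resolve_right hx', hx'⟩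
    have hneB : ∀ b u, b ∉ SS → u ∈ S → b ≠ σ u := fun b u hb hu e => hb (e ▸ hSS u hu)
    have hSa : ∀ u ∈ S, h u ≠ h a := fun u hu e => hSne u hu (h.injective e)
    obtain ⟨d, hd, hdp⟩ := X.hT.ext X.hlin X.hΔ (B ∪ SS) p L
      (by
        intro x hx
        rcases hmem x hx with ⟨u, hu, rfl⟩ | ⟨hb, hb'⟩
        · rw [hpS u hu]
          exact ⟨_, _, hSa u hu, rfl⟩
        · rw [hpB x hb']
          obtain ⟨c, hc⟩ := exists_ne x
          exact (hρ.hm x c (h a) hc.symm).rl.2.1)
      (by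
        intro x hx y hy hxy
        rcases hmem x hx with ⟨u, hu, rfl⟩ | ⟨hb, hb'⟩
        · rcases hmem y hy with ⟨v, hv, rfl⟩ | ⟨hc, hc'⟩
          · have huv : u ≠ v := fun e => hxy (by rw [e])
            rw [hpS u hu, hpS v hv, col_aut hσ, ← col_aut hh u v]
            exact Tr.mk (fun e => huv (h.injective e)) (hSa u hu) (hSa v hv)
          · rw [hpS u hu, hpB y hc', hs.col_symm]
            exact (htr y hc u hu hxy.symm).swap23 hs
        · rcases hmem y hy with ⟨v, hv, rfl⟩ | ⟨hc, hc'⟩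
          · rw [hpB x hb', hpS v hv]
            exact htr x hb v hv hxy
          · rw [hpB x hb', hpB y hc']
            exact hρ.hm x y (h a) hxy)
      (by
        intro x hx y hy hxy hLy
        rcases hmem x hx with ⟨u, hu, rfl⟩ | ⟨hb, hb'⟩
        · rcases hmem y hy with ⟨v, hv, rfl⟩ | ⟨hc, hc'⟩
          · rw [hLS v hv] at hLy
            rw [hLS u hu]
            exact X.tr ((hlt u v).1 hxy) hLy
          · rw [hLB y hc'] at hLy
            rw [hLS u hu]
            obtain ⟨k', h1, h2, h3, h4⟩ := hrel y hc u hu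
            exact (X.ordBS h1 (by omega) (hneB y u hc' hu) (hSa u hu) h2 h3 h4).2.1 hxy hLy
        · rcases hmem y hy with ⟨v, hv, rfl⟩ | ⟨hc, hc'⟩
          · rw [hLS v hv] at hLy
            rw [hLB x hb']
            obtain ⟨k', h1, h2, h3, h4⟩ := hrel x hb v hv
            exact (X.ordBS h1 (by omega) (hneB x v hb' hv) (hSa v hv) h2 h3 h4).1 hxy hLy
          · rw [hLB y hc'] at hLy
            rw [hLB x hb']
            exact (X.ordBB hxy).1 hLy)
      (by
        intro x hx y hy hxy hLy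
        have hdxy : dd Δ lev x y = lev (col Δ x y) + 1 := dd_ne (X.ne hxy)
        rcases hmem x hx with ⟨u, hu, rfl⟩ | ⟨hb, hb'⟩
        · have hlu := hlevS u hu
          rcases hmem y hy with ⟨v, hv, rfl⟩ | ⟨hc, hc'⟩
          · rw [hLS v hv] at hLy
            have h1 := (X.dd_conv ((hlt u v).1 hxy) hLy).1
            have h2 := hdd u v
            omega
          · rw [hLB y hc'] at hLy
            obtain ⟨k', h1, h2, h3, h4⟩ := hrel y hc u hu
            have h5 := (X.ordBS h1 (by omega) (hneB y u hc' hu) (hSa u hu) h2 h3 h4).2.2.2.1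
              hxy hLy
            rw [X.dd_symm] at h5
            omega
        · have hlx := hlevB x hb'
          rcases hmem y hy with ⟨v, hv, rfl⟩ | ⟨hc, hc'⟩
          · rw [hLS v hv] at hLy
            obtain ⟨k', h1, h2, h3, h4⟩ := hrel x hb v hv
            have h5 := (X.ordBS h1 (by omega) (hneB x v hb' hv) (hSa v hv) h2 h3 h4).2.2.1 hxy hLy
            omega
          · rw [hLB y hc'] at hLy
            have h5 := (X.ordBB hxy).2.1 hLy
            omega)
      (by
        intro x hx y hy hLx hLy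
        have hxy : x ≠ y := by
          rintro rfl
          exact hLy hLx
        have hdxy : dd Δ lev x y = lev (col Δ x y) + 1 := dd_ne hxy
        rcases hmem x hx with ⟨u, hu, rfl⟩ | ⟨hb, hb'⟩
        · have hlu := hlevS u hu
          rw [hLS u hu] at hLx
          rcases hmem y hy with ⟨v, hv, rfl⟩ | ⟨hc, hc'⟩
          · rw [hLS v hv] at hLy
            have h1 : Δ.lt (h a) (h v) := by
              rcases X.tri (h v) (h a) with h' | h' | h'
              · exact absurd h' hLy
              · exact absurd h' (hSa v hv)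
              · exact h'
            have h2 := (X.dd_conv hLx h1).1
            have h3 := hdd u v
            omega
          · rw [hLB y hc'] at hLy
            obtain ⟨k', h1, h2, h3, h4⟩ := hrel y hc u hu
            have h5 := (X.ordBS h1 (by omega) (hneB y u hc' hu) (hSa u hu) h2 h3 h4).2.2.2.2.2.1
              hLx hLy
            rw [X.dd_symm y] at h5
            omega
        · have hlx := hlevB x hb'
          rw [hLB x hb'] at hLx
          rcases hmem y hy with ⟨v, hv, rfl⟩ | ⟨hc, hc'⟩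
          · rw [hLS v hv] at hLy
            obtain ⟨k', h1, h2, h3, h4⟩ := hrel x hb v hv
            have h5 := (X.ordBS h1 (by omega) (hneB x v hb' hv) (hSa v hv) h2 h3 h4).2.2.2.2.1
              hLx hLy
            omega
          · rw [hLB y hc'] at hLy
            rcases X.tri x y with h' | h' | h'
            · have h5 := (X.ordBB h').2.2.2 hLx hLy
              omega
            · exact absurd h' hxy
            · exact absurd ((X.ordBB h').1 hLx) hLy)
      (by
        intro x hx y hy hLx hxy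
        rcases hmem x hx with ⟨u, hu, rfl⟩ | ⟨hb, hb'⟩
        · have hlu := hlevS u hu
          rw [hLS u hu] at hLx
          rcases hmem y hy with ⟨v, hv, rfl⟩ | ⟨hc, hc'⟩
          · have hlv := hlevS v hv
            have h1 : Δ.lt (h a) (h u) := by
              rcases X.tri (h u) (h a) with h' | h' | h'
              · exact absurd h' hLx
              · exact absurd h' (hSa u hu)
              · exact h'
            have h2 := (X.dd_conv h1 ((hlt u v).1 hxy)).1
            rw [X.dd_symm (h a) (h u), X.dd_symm (h a) (h v)] at h2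
            omega
          · have hly := hlevB y hc'
            obtain ⟨k', h1, h2, h3, h4⟩ := hrel y hc u hu
            have h5 := (X.ordBS h1 (by omega) (hneB y u hc' hu) (hSa u hu) h2 h3 h4).2.2.2.2.2.2.2
              hLx hxy
            omega
        · have hlx := hlevB x hb'
          rw [hLB x hb'] at hLx
          rcases hmem y hy with ⟨v, hv, rfl⟩ | ⟨hc, hc'⟩
          · have hlv := hlevS v hv
            obtain ⟨k', h1, h2, h3, h4⟩ := hrel x hb v hv
            have h5 := (X.ordBS h1 (by omega) (hneB x v hb' hv) (hSa v hv) h2 h3 h4).2.2.2.2.2.2.1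
              hLx hxy
            omega
          · have hly := hlevB y hc'
            have h5 := (X.ordBB hxy).2.2.1 hLx
            omega)
    rw [Finset.mem_union, not_or] at hd
    -- the new automorphism
    obtain ⟨σ', hσ', hσ'f⟩ := ext_of hs X.hΔ (S := ((insert a S : Finset D) : Set D))
      (Finset.finite_toSet _) (f := fun x => if x = a then d else σ x) (by
      have i1 : (if a = a then d else σ a) = d := if_pos rfl
      have i2 : ∀ u ∈ S, (if u = a then d else σ u) = σ u := fun u hu => if_neg (hSne u hu)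
      have key : ∀ u ∈ S, σ u ≠ d ∧ col Δ (σ u) d = col Δ u a ∧
          (Δ.lt (σ u) d ↔ Δ.lt u a) := by
        intro u hu
        obtain ⟨h1, h2⟩ := hdp (σ u) (Finset.mem_union_right _ (hSS u hu))
        refine ⟨fun e => hd.2 (e ▸ hSS u hu), ?_, ?_⟩
        · rw [hs.col_symm, h1, hpS u hu, col_aut hh]
        · rw [h2, hLS u hu, lt_aut hh]
      intro x hx y hy hxy
      rw [Finset.mem_coe, Finset.mem_insert] at hx hy
      rcases hx with rfl | hx
      · rcases hy with rfl | hy
        · exact absurd rfl hxy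
        · obtain ⟨h1, h2, h3⟩ := key y hy
          rw [i1, i2 y hy]
          refine ⟨h1.symm, by rw [hs.col_symm, h2, hs.col_symm], ?_⟩
          constructor
          · intro h4
            rcases X.tri x y with h' | h' | h'
            · exact h'
            · exact absurd h' hxy
            · exact absurd (h3.2 h') (X.asym h4)
          · intro h4
            rcases X.tri d (σ y) with h' | h' | h'
            · exact h'
            · exact absurd h'.symm h1
            · exact absurd (h3.1 h') (X.asym h4)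
      · rcases hy with rfl | hy
        · rw [i1, i2 x hx]
          exact key x hx
        · rw [i2 x hx, i2 y hy]
          exact ⟨fun e => hxy (σ.injective e), col_aut hσ _ _, lt_aut hσ _ _⟩) X.irr
    have hσ'a : σ' a = d := (hσ'f a (by simp)).trans (if_pos rfl)
    have hσ'S : ∀ u ∈ S, σ' u = σ u := fun u hu =>
      (hσ'f u (by simp [hu])).trans (if_neg (hSne u hu))
    refine ⟨σ', hσ', ?_, ?_⟩
    · intro u hu huP
      rw [hσ'S u (Finset.mem_union_left _ (Finset.mem_filter.2 ⟨hu, huP⟩))]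
      exact hσP u hu huP
    · intro u hu b hb
      rcases Finset.mem_insert.1 hu with rfl | hu
      · rw [hσ'a]
        obtain ⟨h1, h2⟩ := hdp b (Finset.mem_union_left _ hb)
        have hbd : b ≠ d := fun e => hd.1 (e ▸ hb)
        by_cases hbSS : b ∈ SS
        · obtain ⟨h3, h4⟩ := hBSS b hb hbSS
          refine ⟨?_, h2.trans h4⟩
          show cc Δ b d = some (ρ (cc Δ b (h _)))
          rw [cc_ne hbd, hs.col_symm, h1, h3]
        · refine ⟨?_, h2.trans (hLB b hbSS)⟩
          show cc Δ b d = some (ρ (cc Δ b (h _)))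
          rw [cc_ne hbd, hs.col_symm, h1, hpB b hbSS]
      · rw [hσ'S u (Finset.mem_union_right _ hu)]
        exact hσA u hu b hb

end Pool.Agent.MP_f99268_lc
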